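import Pool.Agent.Helper17.PP.Defs

/-!
# Project PP (MP_fc6b1e_nt), stage 2 (the case `χ₀ = 1`): the abstract moment theorem without the weak
condition

No hypothesis on the primes which are not split (there may be none).
-/

namespace Pool.Agent.Helper17.PP0

open Finset Pool.Agent.Helper17.PP

variable {p : ℕ} {B B₀ k U Λ C : Type} [Field k] [AddCommGroup U] [Module k U]
    [AddCommGroup Λ] [Module k Λ] [AddCommGroup C] (S : Sys p B B₀ k U Λ C)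

open Classical in
/-- The analytic hypotheses, with one constant `K`: those of `Sys.Hyp` without the ones on the primes
which are not split. -/
structure Hyp₀ [Fintype k] [Algebra (ZMod p) k] (ψ : AddChar k ℂ) (g : ℝ → ℝ) (K : ℕ) :
    Prop where
  one_le : 1 ≤ K
  ψ_ne : ψ ≠ 1
  /-- Chebyshev. -/
  che : ∀ j : ℕ, 1 ≤ j → ∑ q ∈ S.blk j, (1 : ℝ) / S.N q ≤ K / j
  g_one : ∀ Y, 1 ≤ g Y
  g_mono : ∀ Y X, Y ≤ X → g Y ≤ K * g X
  /-- The upper bound for sums of multiplicative functions. -/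
  ht : ∀ (f : B → ℝ), (∀ q, 0 ≤ f q ∧ f q ≤ Fintype.card k + 4) → ∀ (Y : ℝ), 0 < Y →
    ∀ P : Finset B, ∑ b ∈ P.powerset, (∏ q ∈ b, f q) * Real.exp (-(S.nm b / Y)) ≤
      K * (Y * min 1 Y * g Y) * Real.exp (∑ q ∈ S.upto Y, (f q - 1) / S.N q)
  /-- Mertens, lower bound, split primes. -/
  mers : ∀ m n : ℕ, 1 ≤ m → m ≤ n → (1 / K : ℝ) * Real.log (n / m) - K ≤
    ∑ q ∈ S.below n with S.spl q ∧ m ≤ S.bl q, (1 : ℝ) / S.N q
  /-- A functional which is trivial on `U` is nontrivial at many primes. -/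
  sm : ∀ (D : Finset B) (y : B → k) (χ : AddChar Λ ℂ) (n : ℕ), 1 ≤ n →
    (∀ q ∈ D, S.spl q ∧ y q ≠ 0) → Set.InjOn S.bs (D : Set B) → (D.Nonempty ∨ χ ≠ 1) →
    (∀ x : U, S.fU ψ χ D y x = 1) →
    (1 / K : ℝ) * Real.log n - K * Real.log (Real.log (S.nm D + 3)) - K ≤
      ∑ q ∈ S.below n with (S.spl q ∧ (∀ q' ∈ D, S.bs q' ≠ S.bs q) ∧
        ∃ t : k, S.fB ψ χ D y q t ≠ 1), (1 : ℝ) / S.N q
  /-- A fixed nonzero element has nonzero symbol at many primes. -/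
  kum : ∀ (x : U) (c : B →₀ k), (∀ q, c q ≠ 0 → S.spl q) →
    Set.InjOn S.bs (c.support : Set B) → ¬ (x = 0 ∧ c = 0) →
    ∀ T : ℝ, ∃ n : ℕ, T ≤ ∑ q ∈ S.below n with (S.spl q ∧ (∀ q' ∈ c.support, S.bs q' ≠ S.bs q) ∧
      S.res q x + ∑ q' ∈ c.support, c q' * S.a q q' ≠ 0), (1 : ℝ) / S.N q
  /-- Bilinear bound: a split prime `q` (the variable) and a modulus `D` of split primes. -/
  bl₁ : ∀ (i j : ℕ) (t : k) (y c : B → k) (α : B → ℂ) (β : Finset B → ℂ) (Y : ℝ), 1 ≤ j →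
    t ≠ 0 → 0 < Y → (∀ q, ‖α q‖ ≤ 1) → (∀ D, ‖β D‖ ≤ (Fintype.card k : ℝ) ^ D.card) →
    (∀ D, β D ≠ 0 → Set.InjOn S.bs (D : Set B) ∧ ∀ q ∈ D, S.spl q ∧ S.bl q ≠ j ∧ y q ≠ 0) →
    ‖∑ q ∈ S.blk j with S.spl q, ∑ D ∈ S.mods i, α q * β D * S.chr ψ D y c t q *
      (Real.exp (-(S.N q * S.nm D / Y)) : ℂ)‖ ≤
      K * 2 ^ (i + j) * (i + 1) ^ K * (2 : ℝ) ^ (-(min i j : ℝ) / K) *
        Real.exp (-((2 : ℝ) ^ (i + j) / (2 * Y)))

end Pool.Agent.Helper17.PP0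

namespace Pool.Agent.Helper17.PP0

open Finset Pool.Agent.Helper17.PP

open Classical in
/-- **MT₀**, the abstract moment theorem without the weak condition. The bad `b` of the family have Abel
mean at most `(|U|/|Λ|) Q/(Q-1)`, where `Q = |k|`. -/
def MT₀ : Prop :=
  ∀ (p : ℕ) [Fact p.Prime] (B B₀ k U Λ C : Type) [Field k] [Fintype k] [Algebra (ZMod p) k]
    [AddCommGroup U] [Module k U] [Fintype U] [AddCommGroup Λ] [Module k Λ] [Fintype Λ]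
    [AddCommGroup C] [Finite C] (S : Sys p B B₀ k U Λ C) (ψ : AddChar k ℂ)
    (g : ℝ → ℝ) (K : ℕ), Hyp₀ S ψ g K →
  ∀ ε : ℝ, 0 < ε → ∃ X₀ : ℝ, ∀ X : ℝ, X₀ ≤ X → ∀ P : Finset B,
    ∑ b ∈ P.powerset with (S.Fam b ∧ S.Bad b), Real.exp (-(S.nm b / X)) ≤
      (Fintype.card U / Fintype.card Λ) * (Fintype.card k / (Fintype.card k - 1)) *
        ∑ b ∈ P.powerset with S.Fam b, Real.exp (-(S.nm b / X)) + ε * (X * g X)

end Pool.Agent.Helper17.PP0
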