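import Pool.Agent.Helper17.PP.GoalsC3
import Pool.Agent.Helper17.PP0.Defs

/-!
# Project PP, stage 2 (`χ₀ = 1`): the goals of part C which use the analytic hypotheses, for `Hyp₀`

The same statements and the same proofs as in `Helper17/PP/GoalsC2.lean` and `GoalsC3.lean`; only the
fields of `Hyp₀` are used.
-/

namespace Pool.Agent.Helper17.PP0

open Finset Pool.Agent.Helper17.PP

open Classical in
/-- `C_LRG` for `Hyp₀`. -/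
def Z_LRG : Prop :=
  ∀ (p : ℕ) [Fact p.Prime] (B B₀ k U Λ C : Type) [Field k] [Fintype k] [Algebra (ZMod p) k]
    [AddCommGroup U] [Module k U] [Fintype U] [AddCommGroup Λ] [Module k Λ] [Fintype Λ]
    [AddCommGroup C] [Finite C] (S : Sys p B B₀ k U Λ C) (ψ : AddChar k ℂ)
    (g : ℝ → ℝ) (K : ℕ), Hyp₀ S ψ g K →
  ∃ K' : ℕ, ∀ (E i j : ℕ) (X : ℝ) (P : Finset B), 1 ≤ j → j ≤ th E j → 1 ≤ X →
    ‖∑ b ∈ P.powerset with S.Fam b, ∑ q ∈ b with (S.Wt E b q ∧ S.bl q = j),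
      ∑ D ∈ (S.rg E b q).powerset with Nat.log 2 (S.nm D) = i, ∑ χ : AddChar Λ ℂ,
        S.part ψ E P b q D χ * (Real.exp (-(S.nm b / X)) : ℂ)‖ ≤
      K' * (i + 1) ^ K * (2 : ℝ) ^ (-(min i j : ℝ) / K) * (X * g X)

open Classical in
/-- `C_SML` for `Hyp₀`. -/
def Z_SML : Prop :=
  ∀ (p : ℕ) [Fact p.Prime] (B B₀ k U Λ C : Type) [Field k] [Fintype k] [Algebra (ZMod p) k]
    [AddCommGroup U] [Module k U] [Fintype U] [AddCommGroup Λ] [Module k Λ] [Fintype Λ]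
    [AddCommGroup C] [Finite C] (S : Sys p B B₀ k U Λ C) (ψ : AddChar k ℂ)
    (g : ℝ → ℝ) (K : ℕ), Hyp₀ S ψ g K →
  ∃ K' : ℕ, ∀ (E j I : ℕ) (X : ℝ) (P : Finset B), 1 ≤ j → j ≤ th E j → 1 ≤ X →
    ∑ b ∈ P.powerset with S.Fam b, ∑ q ∈ b with (S.Wt E b q ∧ S.bl q = j),
      ∑ D ∈ (S.rg E b q).powerset with Nat.log 2 (S.nm D) < I,
        ∑ χ : AddChar Λ ℂ with (D.Nonempty ∨ χ ≠ 1),
          ‖S.part ψ E P b q D χ‖ * Real.exp (-(S.nm b / X)) ≤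
      K' * (I + 2) ^ K' / j * min 1 (X / 2 ^ j) *
        ((max 1 (min j (lg X - (j + 1 + I))) : ℕ) : ℝ) ^ (-(1 / K : ℝ)) * (X * g X)

open Classical in
/-- `C_MNS` for `Hyp₀`. -/
def Z_MNS : Prop :=
  ∀ (p : ℕ) [Fact p.Prime] (B B₀ k U Λ C : Type) [Field k] [Fintype k] [Algebra (ZMod p) k]
    [AddCommGroup U] [Module k U] [Fintype U] [AddCommGroup Λ] [Module k Λ] [Fintype Λ]
    [AddCommGroup C] [Finite C] (S : Sys p B B₀ k U Λ C) (ψ : AddChar k ℂ)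
    (g : ℝ → ℝ) (K : ℕ), Hyp₀ S ψ g K →
  ∃ K' : ℕ, ∀ (E j : ℕ) (X : ℝ) (P : Finset B), 1 ≤ j → j ≤ th E j → 1 ≤ X →
      2 * (j + 1) ≤ lg X →
    ∑ b ∈ P.powerset, ∑ q ∈ b with (S.Wt E b q ∧ S.bl q = j),
        (1 / Fintype.card k : ℝ) ^ (S.rt E b q).card * Real.exp (-(S.nm b / X)) ≤
      K' / j * (((j + 1 : ℕ) : ℝ) / (min (th E j + 1) (lg X - j - 1) : ℕ)) ^ (1 / (2 * K) : ℝ) *
        (X * g X)

open Classical in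
/-- `C_EX0` for `Hyp₀`. -/
def Z_EX0 : Prop :=
  ∀ (p : ℕ) [Fact p.Prime] (B B₀ k U Λ C : Type) [Field k] [Fintype k] [Algebra (ZMod p) k]
    [AddCommGroup U] [Module k U] [Fintype U] [AddCommGroup Λ] [Module k Λ] [Fintype Λ]
    [AddCommGroup C] [Finite C] (S : Sys p B B₀ k U Λ C) (ψ : AddChar k ℂ)
    (g : ℝ → ℝ) (K : ℕ), Hyp₀ S ψ g K →
  ∀ (j₀ : ℕ) (ε : ℝ), 0 < ε → ∃ X₀ : ℝ, ∀ X, X₀ ≤ X → ∀ P : Finset B,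
    ∑ b ∈ P.powerset with (S.Fam b ∧ ∃ (x : U) (c : B → k), S.IsSol b x c ∧
      ¬ (x = 0 ∧ c = 0) ∧ ∀ q, c q ≠ 0 → S.bl q < j₀), Real.exp (-(S.nm b / X)) ≤ ε * (X * g X)

open Classical in
/-- `C_EX2` for `Hyp₀`. -/
def Z_EX2 : Prop :=
  ∀ (p : ℕ) [Fact p.Prime] (B B₀ k U Λ C : Type) [Field k] [Fintype k] [Algebra (ZMod p) k]
    [AddCommGroup U] [Module k U] [Fintype U] [AddCommGroup Λ] [Module k Λ] [Fintype Λ]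
    [AddCommGroup C] [Finite C] (S : Sys p B B₀ k U Λ C) (ψ : AddChar k ℂ)
    (g : ℝ → ℝ) (K : ℕ), Hyp₀ S ψ g K →
  ∃ K' : ℕ, ∀ (j₀ : ℕ) (X : ℝ) (P : Finset B), 1 ≤ j₀ → 1 ≤ X →
    ∑ b ∈ P.powerset with (∃ q ∈ b, ∃ q' ∈ b, q ≠ q' ∧ S.bl q = S.bl q' ∧ j₀ ≤ S.bl q),
      Real.exp (-(S.nm b / X)) ≤ K' / j₀ * (X * g X)

open Classical in
/-- `C_EX5` for `Hyp₀`. -/
def Z_EX5 : Prop :=
  ∀ (p : ℕ) [Fact p.Prime] (B B₀ k U Λ C : Type) [Field k] [Fintype k] [Algebra (ZMod p) k]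
    [AddCommGroup U] [Module k U] [Fintype U] [AddCommGroup Λ] [Module k Λ] [Fintype Λ]
    [AddCommGroup C] [Finite C] (S : Sys p B B₀ k U Λ C) (ψ : AddChar k ℂ)
    (g : ℝ → ℝ) (K : ℕ), Hyp₀ S ψ g K →
  ∀ (E : ℕ) (ε : ℝ), 1 ≤ E → 0 < ε → ∃ j₁ : ℕ, ∀ j₀, j₁ ≤ j₀ → ∀ X : ℝ, 1 ≤ X → ∀ P : Finset B,
    ∑ b ∈ P.powerset with (∃ q ∈ b, j₀ ≤ S.bl q ∧ ∃ D ⊆ b, q ∉ D ∧
      (∀ q' ∈ D, S.bl q' ≤ th E (S.bl q)) ∧ 2 ^ tb E (S.bl q) ≤ S.nm D),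
      Real.exp (-(S.nm b / X)) ≤ ε * (X * g X)

open Classical in
/-- `C_EX6` for `Hyp₀`. -/
def Z_EX6 : Prop :=
  ∀ (p : ℕ) [Fact p.Prime] (B B₀ k U Λ C : Type) [Field k] [Fintype k] [Algebra (ZMod p) k]
    [AddCommGroup U] [Module k U] [Fintype U] [AddCommGroup Λ] [Module k Λ] [Fintype Λ]
    [AddCommGroup C] [Finite C] (S : Sys p B B₀ k U Λ C) (ψ : AddChar k ℂ)
    (g : ℝ → ℝ) (K : ℕ), Hyp₀ S ψ g K →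
  ∀ (E : ℕ) (ε : ℝ), 1 ≤ E → 0 < ε → ∃ X₀ : ℝ, ∀ X, X₀ ≤ X → ∀ P : Finset B,
    ∑ b ∈ P.powerset with (∃ q ∈ b, th E (Nat.sqrt (lg X)) < S.bl q),
      Real.exp (-(S.nm b / X)) ≤ ε * (X * g X)

end Pool.Agent.Helper17.PP0
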