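import Pool.Agent.Helper17.PP0.Fin0

/-!
# Project PP, stage 2: the assembly of `MT₀`
-/

namespace Pool.Agent.Helper17.PP0

open Finset Pool.Agent.Helper17.PP

theorem fin₀ (hCNT : C_CNT) (hLRG : Z_LRG) (hSML : Z_SML) (hMNS : Z_MNS) (hMNB : C_MNB)
    (hEX0 : Z_EX0) (hEX2 : Z_EX2) (hEX5 : Z_EX5) (hEX6 : Z_EX6) (hSM1 : C_SM1) (hSM2 : C_SM2)
    (hSM3 : C_SM3) (hSTJ : C_STJ) : MT₀ := by
  classical
  intro p _ B B₀ k U Λ C _ _ _ _ _ _ _ _ _ _ _ S ψ g K hyp ε hε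
  obtain ⟨K₁, hK₁⟩ := hLRG p B B₀ k U Λ C S ψ g K hyp
  obtain ⟨K₂, hK₂⟩ := hSML p B B₀ k U Λ C S ψ g K hyp
  obtain ⟨K₄, hK₄⟩ := hMNS p B B₀ k U Λ C S ψ g K hyp
  obtain ⟨K₅, hK₅⟩ := hEX2 p B B₀ k U Λ C S ψ g K hyp
  have hK : 1 ≤ K := hyp.one_le
  set E := 2 * K * (K + 1) with hE
  set A := 4 * K with hAdef
  have hE1 : 1 ≤ E := by
    rw [hE]; nlinarith
  set Q : ℝ := (Fintype.card k : ℝ) with hQ
  have hQ2 : 2 ≤ Q := by
    rw [hQ]; exact_mod_cast Fintype.one_lt_card (α := k)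
  set ρ : ℝ := (Fintype.card U / Fintype.card Λ : ℝ) with hρ
  have hρ0 : 0 ≤ ρ := by positivity
  set W : ℝ := 5 + ρ * (Q - 1) * K₄ + K₂ + K₁ with hW
  have hW0 : 0 < W := by
    have : 0 ≤ ρ * (Q - 1) * K₄ := by
      have : 0 ≤ Q - 1 := by linarith
      positivity
    positivity
  set e : ℝ := ε / W with he
  have he0 : 0 < e := by positivity
  -- the choice of `j₀`
  obtain ⟨jE, hjE⟩ := le_th_of_large E hE1
  obtain ⟨j5, hj5⟩ := hEX5 p B B₀ k U Λ C S ψ g K hyp E e hE1 he0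
  obtain ⟨j1, hj1⟩ := hSM1 K e hK he0
  obtain ⟨j2, hj2⟩ := hSM2 K K₂ A e hK he0
  obtain ⟨j3, hj3⟩ := hSM3 K E e hK hE1 he0
  obtain ⟨n5, hn5⟩ := exists_nat_ge (K₅ / e : ℝ)
  set j₀ := 2 + jE + j5 + j1 + j2 + j3 + n5 with hj₀
  have hj₀2 : 2 ≤ j₀ := by omega
  have hK5 : (K₅ : ℝ) / j₀ ≤ e := by
    rw [div_le_iff₀ (by positivity)]
    rw [div_le_iff₀ he0] at hn5
    have : (n5 : ℝ) ≤ j₀ := by exact_mod_cast (by omega : n5 ≤ j₀)
    nlinarith
  have hth : ∀ j, j₀ ≤ j → j ≤ th E j := fun j hj ↦ hjE j (by omega)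
  -- the choice of `X₀`
  obtain ⟨L2, hL2⟩ := hj2 j₀ (by omega)
  obtain ⟨L3, hL3⟩ := hj3 j₀ (by omega)
  obtain ⟨X0, hX0⟩ := hEX0 p B B₀ k U Λ C S ψ g K hyp j₀ e he0
  obtain ⟨X6, hX6⟩ := hEX6 p B B₀ k U Λ C S ψ g K hyp E e hE1 he0
  refine ⟨max (2 ^ (L2 + L3 + 9 + j₀ * j₀)) (max X0 X6), fun X hX P ↦ ?_⟩
  have hXp : (2 : ℝ) ^ (L2 + L3 + 9 + j₀ * j₀) ≤ X := (le_max_left _ _).trans hX
  have hXX := (le_max_right _ _).trans hX
  have hXX0 : X0 ≤ X := (le_max_left _ _).trans hXX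
  have hXX6 : X6 ≤ X := (le_max_right _ _).trans hXX
  have hLX := le_lg hXp
  set L := lg X with hL
  set s := Nat.sqrt L with hs
  have hX1 : 1 ≤ X := le_trans (one_le_pow₀ (by norm_num)) hXp
  have hj₀s : j₀ ≤ s := by
    rw [hs, Nat.le_sqrt]; omega
  have hgX : 1 ≤ g X := hyp.g_one X
  have hXg : 0 ≤ X * g X := by positivity
  set P' := P.filter fun q ↦ S.bl q ≤ th E s with hP'
  have hP'bl : ∀ q ∈ P', S.bl q ≤ th E s := fun q hq ↦ (mem_filter.1 hq).2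
  -- the exceptional sets
  have b1 := step1 (Λ := Λ) S hCNT E j₀ s X P
  have b6 := hX6 X hXX6 P
  have b0 := hX0 X hXX0 P
  have b2 := (hK₅ j₀ X P (by omega) hX1).trans (mul_le_mul_of_nonneg_right hK5 hXg)
  have b5 := hj5 j₀ (by omega) X hX1 P
  -- the good sets
  have b4 := step4 (Λ := Λ) S E j₀ s P' X hP'bl
  have hT1 : ∀ j, j₀ ≤ j → T1 S E P' X j ≤ ρ * (Q - 1) * M1 S E P' X j +
      K₂ * (((ti A j : ℝ) + 2) ^ K₂ / j * min 1 (2 ^ (lg X + 1) / 2 ^ j) *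
        ((max 1 (min j (lg X - (j + 1 + ti A j))) : ℕ) : ℝ) ^ (-(1 / K : ℝ))) * (X * g X) +
      K₁ * (∑ i ∈ Ico (ti A j) (tb E j),
        ((i : ℝ) + 1) ^ K * (2 : ℝ) ^ (-(min i j : ℝ) / K)) * (X * g X) := by
    intro j hj
    refine step5 S hSTJ ψ hyp.ψ_ne g K K₁ K₂ E A X P' j ?_ (by omega) (hth j hj) hX1
      (by linarith) (fun i ↦ hK₁ E i j X P' (by omega) (hth j hj) hX1)
      (hK₂ E j (ti A j) X P' (by omega) (hth j hj) hX1)
    unfold ti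
    have : 1 ≤ Nat.log 2 j := Nat.le_log_of_pow_le (by norm_num) (by omega)
    have : 1 ≤ A := by omega
    nlinarith
  have hsumSM : ∀ J, ∑ j ∈ Ico j₀ J, (K₂ * (((ti A j : ℝ) + 2) ^ K₂ / j *
        min 1 (2 ^ (lg X + 1) / 2 ^ j) *
        ((max 1 (min j (lg X - (j + 1 + ti A j))) : ℕ) : ℝ) ^ (-(1 / K : ℝ))) * (X * g X) +
      K₁ * (∑ i ∈ Ico (ti A j) (tb E j),
        ((i : ℝ) + 1) ^ K * (2 : ℝ) ^ (-(min i j : ℝ) / K)) * (X * g X)) ≤
      (K₂ + K₁) * e * (X * g X) := by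
    intro J
    rw [Finset.sum_add_distrib, ← Finset.sum_mul, ← Finset.sum_mul, ← Finset.mul_sum,
      ← Finset.mul_sum]
    have c2 := hL2 L (by omega) J
    have c1 := hj1 j₀ (by omega) J
    have c2' := mul_le_mul_of_nonneg_left c2 (Nat.cast_nonneg (α := ℝ) K₂)
    have c1' := mul_le_mul_of_nonneg_left c1 (Nat.cast_nonneg (α := ℝ) K₁)
    have c2'' := mul_le_mul_of_nonneg_right c2' hXg
    have c1'' := mul_le_mul_of_nonneg_right c1' hXg
    calc _ ≤ K₂ * e * (X * g X) + K₁ * e * (X * g X) := add_le_add c2'' c1''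
      _ = _ := by ring
  -- the main terms, small `j`
  have hM4 : ∑ j ∈ Ico j₀ s, M1 S E P' X j ≤ K₄ * e * (X * g X) := by
    have h1 : ∀ j ∈ Ico j₀ s, M1 S E P' X j ≤ K₄ * ((1 / j : ℝ) *
      (((j + 1 : ℕ) : ℝ) / (min (th E j + 1) (L - j - 1) : ℕ)) ^ (1 / (2 * K) : ℝ)) *
        (X * g X) := by
      intro j hj
      rw [mem_Ico] at hj
      have h2 := hK₄ E j X P' (by omega) (hth j hj.1) hX1 (by
        rw [← hL]; exact sqrt_small (by omega) hj.2)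
      have h3 : M1 S E P' X j ≤ ∑ b ∈ P'.powerset, ∑ q ∈ b with (S.Wt E b q ∧ S.bl q = j),
          (1 / Fintype.card k : ℝ) ^ (S.rt E b q).card * Real.exp (-(S.nm b / X)) := by
        unfold M1
        exact Finset.sum_le_sum_of_subset_of_nonneg (Finset.filter_subset _ _)
          fun b _ _ ↦ by positivity
      refine h3.trans (h2.trans (le_of_eq ?_))
      ring
    refine (Finset.sum_le_sum h1).trans ?_
    rw [← Finset.sum_mul, ← Finset.mul_sum]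
    exact mul_le_mul_of_nonneg_right (mul_le_mul_of_nonneg_left (hL3 L (by omega))
      (Nat.cast_nonneg _)) hXg
  set F : ℝ := ∑ b ∈ P'.powerset with S.Fam b, Real.exp (-(S.nm b / X)) with hF
  have hF0 : 0 ≤ F := by positivity
  have hQ0 : 0 ≤ Q - 1 := by linarith
  have hsT : s ≤ th E s + 1 := by
    have := hth s hj₀s
    omega
  have hS : ∑ j ∈ Ico j₀ (th E s + 1), T1 S E P' X j ≤
      ρ * (Q - 1) * (K₄ * e * (X * g X)) + ρ * (Q * F) + (K₂ + K₁) * e * (X * g X) := by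
    refine (Finset.sum_le_sum fun j hj ↦ (hT1 j (mem_Ico.1 hj).1).trans_eq
      (add_assoc _ _ _)).trans ?_
    rw [Finset.sum_add_distrib, ← Finset.mul_sum]
    refine add_le_add ?_ (hsumSM _)
    rw [← Finset.sum_Ico_consecutive _ hj₀s hsT, mul_add]
    refine add_le_add (mul_le_mul_of_nonneg_left hM4 (by positivity)) ?_
    rw [mul_assoc]
    exact mul_le_mul_of_nonneg_left (step6 (Λ := Λ) S hMNB E s P' X hP'bl) hρ0
  -- conclusion for the good sets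
  set G : ℝ := ∑ b ∈ P'.powerset with (S.Fam b ∧
        ∃ q, S.Wt E b q ∧ j₀ ≤ S.bl q ∧ Fintype.card k - 1 ≤ S.cnt₂ E b q),
        Real.exp (-(S.nm b / X)) with hG
  have hgood : (Q - 1) * G ≤ (ρ * Q) * F +
      (ρ * (Q - 1) * K₄ + K₂ + K₁) * e * (X * g X) := by
    refine b4.trans (hS.trans (le_of_eq ?_))
    ring
  have hG2 : G ≤ ρ * (Q / (Q - 1)) * F +
      (ρ * (Q - 1) * K₄ + K₂ + K₁) * e * (X * g X) := by
    have hQ1 : 0 < Q - 1 := by linarith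
    have h0 : 0 ≤ (ρ * (Q - 1) * K₄ + K₂ + K₁) * e * (X * g X) := by positivity
    have h1 : G ≤ ((ρ * Q) * F +
      (ρ * (Q - 1) * K₄ + K₂ + K₁) * e * (X * g X)) / (Q - 1) := by
      rw [le_div_iff₀ hQ1]; linarith
    refine h1.trans ?_
    rw [add_div]
    refine add_le_add (le_of_eq ?_) (div_le_self h0 (by linarith))
    field_simp
  have hFF : F ≤ ∑ b ∈ P.powerset with S.Fam b, Real.exp (-(S.nm b / X)) := by
    refine Finset.sum_le_sum_of_subset_of_nonneg ?_ fun b _ _ ↦ by positivity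
    intro b hb
    rw [mem_filter, mem_powerset] at hb ⊢
    exact ⟨hb.1.trans (Finset.filter_subset _ _), hb.2⟩
  have hθ : 0 ≤ ρ * (Q / (Q - 1)) := by positivity
  have hG3 := hG2.trans (add_le_add (mul_le_mul_of_nonneg_left hFF hθ) le_rfl)
  have hWe : W * e = ε := by
    rw [he]; field_simp
  have hfinal : (4 + (ρ * (Q - 1) * K₄ + K₂ + K₁)) * e * (X * g X) ≤
      ε * (X * g X) := by
    rw [← hWe]
    refine mul_le_mul_of_nonneg_right (mul_le_mul_of_nonneg_right ?_ he0.le) hXg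
    rw [hW]; linarith
  refine b1.trans ?_
  have b1' := add_le_add (add_le_add (add_le_add (add_le_add b6 b0) b2) b5) hG3
  refine b1'.trans ?_
  nlinarith [hfinal]

end Pool.Agent.Helper17.PP0
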