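import Pool.Agent.Helper17.PP0.Goals

/-!
# Project PP, goal C_EX0
-/

namespace Pool.Agent.Helper17.PP0.EX0

open Finset Pool.Agent.Helper17.PP

section

variable {p : ℕ} {B B₀ k U Λ C : Type} [Field k] [AddCommGroup U] [Module k U]
    [AddCommGroup Λ] [Module k Λ] [AddCommGroup C] (S : Sys p B B₀ k U Λ C)

theorem mem_below {n : ℕ} {q : B} : q ∈ S.below n ↔ S.bl q < n := by
  classical
  unfold Sys.below
  simp only [mem_filter, Set.Finite.mem_toFinset, Set.mem_ofPred_eq]
  constructor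
  · exact fun h ↦ h.2
  · intro h
    refine ⟨?_, h⟩
    have h1 : S.N q < 2 ^ (Nat.log 2 (S.N q) + 1) := Nat.lt_pow_succ_log_self (by norm_num) _
    have h2 : 2 ^ (Nat.log 2 (S.N q) + 1) ≤ 2 ^ n := Nat.pow_le_pow_right (by norm_num) h
    omega

theorem below_subset_upto {n : ℕ} {X : ℝ} (hX : (2 : ℝ) ^ n ≤ X) : S.below n ⊆ S.upto X := by
  classical
  intro q hq
  unfold Sys.below at hq
  simp only [mem_filter, Set.Finite.mem_toFinset, Set.mem_ofPred_eq] at hq
  unfold Sys.upto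
  simp only [Set.Finite.mem_toFinset, Set.mem_ofPred_eq]
  have h1 : ((S.N q : ℕ) : ℝ) ≤ X := by
    have h2 : ((S.N q : ℕ) : ℝ) ≤ (2 : ℝ) ^ n := by exact_mod_cast hq.1
    linarith
  exact Nat.le_floor h1

open Classical in
theorem single [Fintype k] [Algebra (ZMod p) k] [Fact p.Prime] {ψ : AddChar k ℂ}
    {g : ℝ → ℝ} {K : ℕ} (hyp : Hyp₀ S ψ g K) (j₀ : ℕ) (x : U)
    (c : B → k) (hz : ¬ (x = 0 ∧ c = 0)) (hs : ∀ q, c q ≠ 0 → S.bl q < j₀) (T : ℝ) :
    ∃ X₀ : ℝ, ∀ X, X₀ ≤ X → ∀ P : Finset B,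
      ∑ b ∈ P.powerset with (S.Fam b ∧ S.IsSol b x c), Real.exp (-(S.nm b / X)) ≤
        K * Real.exp (-T) * (X * g X) := by
  have hg : ∀ Y, 0 < g Y := fun Y ↦ lt_of_lt_of_le one_pos (hyp.g_one Y)
  -- trivial case
  by_cases htr : (∀ q, c q ≠ 0 → S.spl q) ∧ Set.InjOn S.bs {q | c q ≠ 0}
  swap
  · refine ⟨1, fun X hX P ↦ ?_⟩
    have h0 : (P.powerset.filter fun b ↦ S.Fam b ∧ S.IsSol b x c) = ∅ := by
      rw [Finset.filter_eq_empty_iff]
      rintro b - ⟨hF, hS⟩
      apply htr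
      refine ⟨fun q hq ↦ (hS.supp q hq).2, ?_⟩
      exact hF.1.mono fun q hq ↦ (hS.supp q hq).1
    rw [h0, Finset.sum_empty]
    have := hg X
    positivity
  obtain ⟨hspl, hinj⟩ := htr
  set c' : B →₀ k := Finsupp.onFinset (S.below j₀) c
    (fun q hq ↦ (mem_below S).2 (hs q hq)) with hc'
  have hcc : ∀ q, c' q = c q := fun q ↦ by rw [hc', Finsupp.onFinset_apply]
  have hsup : ∀ q, q ∈ c'.support ↔ c q ≠ 0 := fun q ↦ by
    rw [Finsupp.mem_support_iff, hcc]
  have hinj' : Set.InjOn S.bs (c'.support : Set B) := by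
    have : (c'.support : Set B) = {q | c q ≠ 0} := by
      ext q
      simp only [Finset.mem_coe, hsup, Set.mem_ofPred_eq]
    rw [this]
    exact hinj
  have hz' : ¬ (x = 0 ∧ c' = 0) := by
    rintro ⟨h1, h2⟩
    apply hz
    refine ⟨h1, ?_⟩
    funext q
    rw [← hcc, h2]
    rfl
  obtain ⟨n, hn⟩ := hyp.kum x c' (fun q hq ↦ hspl q (by rwa [hcc] at hq)) hinj' hz' T
  -- the test function
  set cond : B → Prop := fun q ↦ S.spl q ∧ (∀ q' ∈ c'.support, S.bs q' ≠ S.bs q) ∧
    S.res q x + ∑ q' ∈ c'.support, c' q' * S.a q q' ≠ 0 with hcond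
  set f : B → ℝ := fun q ↦ if cond q then 0 else 1 with hf
  refine ⟨max 1 ((2 : ℝ) ^ n), fun X hX P ↦ ?_⟩
  have hX1 : 1 ≤ X := le_trans (le_max_left _ _) hX
  have hX2 : (2 : ℝ) ^ n ≤ X := le_trans (le_max_right _ _) hX
  have hX0 : 0 < X := by linarith
  have key := hyp.ht f (fun q ↦ by
    rw [hf]
    dsimp only
    split_ifs
    · refine ⟨le_refl _, ?_⟩
      positivity
    · refine ⟨by norm_num, ?_⟩
      have : (0 : ℝ) ≤ Fintype.card k := by positivity
      linarith) X hX0 P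
  rw [min_eq_left hX1, mul_one] at key
  -- the left side
  have hL : ∑ b ∈ P.powerset with (S.Fam b ∧ S.IsSol b x c), Real.exp (-(S.nm b / X)) ≤
      ∑ b ∈ P.powerset, (∏ q ∈ b, f q) * Real.exp (-(S.nm b / X)) := by
    rw [Finset.sum_filter]
    apply Finset.sum_le_sum
    intro b _
    split_ifs with hb
    · obtain ⟨hF, hS⟩ := hb
      have h1 : ∏ q ∈ b, f q = 1 := by
        apply Finset.prod_eq_one
        intro q hq
        rw [hf]
        dsimp only
        rw [if_neg]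
        rintro ⟨hq1, hq2, hq3⟩
        apply hq3
        have hcq : c q = 0 := by
          by_contra h
          exact hq2 q ((hsup q).2 h) rfl
        have hloc := hS.loc q hq hq1
        unfold Sys.R at hloc
        rw [hcq, zero_mul, add_zero] at hloc
        rw [← hloc]
        congr 1
        have hsub : c'.support ⊆ b.erase q := by
          intro q' hq'
          rw [hsup] at hq'
          rw [Finset.mem_erase]
          refine ⟨?_, (hS.supp q' hq').1⟩
          rintro rfl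
          exact hq' hcq
        rw [← Finset.sum_subset hsub]
        · apply Finset.sum_congr rfl
          intro q' _
          rw [hcc]
        · intro q' _ hq'
          rw [hsup, not_not] at hq'
          rw [hq', zero_mul]
      rw [h1, one_mul]
    · apply mul_nonneg
      · apply Finset.prod_nonneg
        intro q _
        rw [hf]
        dsimp only
        split_ifs <;> norm_num
      · exact (Real.exp_pos _).le
  -- the exponent
  have hE : ∑ q ∈ S.upto X, (f q - 1) / S.N q ≤ -T := by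
    have h1 : ∑ q ∈ S.upto X, (f q - 1) / S.N q =
        -∑ q ∈ S.upto X with cond q, (1 : ℝ) / S.N q := by
      rw [← Finset.sum_neg_distrib, Finset.sum_filter]
      apply Finset.sum_congr rfl
      intro q _
      rw [hf]
      dsimp only
      split_ifs
      · ring
      · ring
    rw [h1]
    have h2 : ∑ q ∈ S.below n with cond q, (1 : ℝ) / S.N q ≤
        ∑ q ∈ S.upto X with cond q, (1 : ℝ) / S.N q := by
      apply Finset.sum_le_sum_of_subset_of_nonneg
      · exact Finset.filter_subset_filter _ (below_subset_upto S hX2)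
      · intro q _ _
        positivity
    have h3 : T ≤ ∑ q ∈ S.below n with cond q, (1 : ℝ) / S.N q := hn
    linarith
  have hgX := hg X
  calc ∑ b ∈ P.powerset with (S.Fam b ∧ S.IsSol b x c), Real.exp (-(S.nm b / X))
      ≤ K * (X * g X) * Real.exp (∑ q ∈ S.upto X, (f q - 1) / S.N q) := hL.trans key
    _ ≤ K * (X * g X) * Real.exp (-T) := by
        apply mul_le_mul_of_nonneg_left (Real.exp_le_exp.2 hE)
        positivity
    _ = K * Real.exp (-T) * (X * g X) := by ring

end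

open Classical in
theorem c_ex0 : Pool.Agent.Helper17.PP0.Z_EX0 := by
  intro p _ B B₀ k U Λ C _ _ _ _ _ _ _ _ _ _ _ S ψ g K hyp j₀ ε hε
  have hg : ∀ Y, 0 < g Y := fun Y ↦ lt_of_lt_of_le one_pos (hyp.g_one Y)
  set Z : Finset (U × (B → k)) := (univ ×ˢ lab k (S.below j₀)).filter
    (fun z ↦ ¬ (z.1 = 0 ∧ z.2 = 0) ∧ ∀ q, z.2 q ≠ 0 → S.bl q < j₀) with hZ
  -- choice of T
  obtain ⟨T, hT⟩ : ∃ T : ℝ, (Z.card : ℝ) * (K * Real.exp (-T)) ≤ ε := by
    have hpos : (0 : ℝ) < Z.card * K + 1 := by positivity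
    refine ⟨-Real.log (ε / (Z.card * K + 1)), ?_⟩
    rw [neg_neg, Real.exp_log (by positivity)]
    have h1 : (Z.card : ℝ) * (K * (ε / (Z.card * K + 1))) =
        (Z.card * K) / (Z.card * K + 1) * ε := by ring
    rw [h1]
    have h2 : ((Z.card : ℝ) * K) / (Z.card * K + 1) ≤ 1 := by
      rw [div_le_one hpos]
      linarith
    calc ((Z.card : ℝ) * K) / (Z.card * K + 1) * ε ≤ 1 * ε :=
          mul_le_mul_of_nonneg_right h2 hε.le
      _ = ε := one_mul ε
  -- thresholds
  have hex : ∀ z : U × (B → k), ∃ X₀ : ℝ, z ∈ Z → ∀ X, X₀ ≤ X → ∀ P : Finset B,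
      ∑ b ∈ P.powerset with (S.Fam b ∧ S.IsSol b z.1 z.2), Real.exp (-(S.nm b / X)) ≤
        K * Real.exp (-T) * (X * g X) := by
    intro z
    by_cases hz : z ∈ Z
    · have hz' := hz
      rw [hZ, mem_filter] at hz'
      obtain ⟨X₀, h⟩ := single S hyp j₀ z.1 z.2 hz'.2.1 hz'.2.2 T
      exact ⟨X₀, fun _ ↦ h⟩
    · exact ⟨0, fun h ↦ absurd h hz⟩
  choose X₀ hX₀ using hex
  refine ⟨max 1 (∑ z ∈ Z, |X₀ z|), fun X hX P ↦ ?_⟩
  have hX1 : 1 ≤ X := le_trans (le_max_left _ _) hX
  have hXz : ∀ z ∈ Z, X₀ z ≤ X := by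
    intro z hz
    refine le_trans (le_abs_self _) (le_trans ?_ (le_trans (le_max_right _ _) hX))
    exact Finset.single_le_sum (f := fun z ↦ |X₀ z|) (fun i _ ↦ abs_nonneg _) hz
  have hsub : ∀ b, (S.Fam b ∧ ∃ (x : U) (c : B → k), S.IsSol b x c ∧
      ¬ (x = 0 ∧ c = 0) ∧ ∀ q, c q ≠ 0 → S.bl q < j₀) →
      ∃ z ∈ Z, S.Fam b ∧ S.IsSol b z.1 z.2 := by
    rintro b ⟨hF, x, c, hS, hz, hs⟩
    refine ⟨(x, c), ?_, hF, hS⟩
    rw [hZ, mem_filter, mem_product]
    refine ⟨⟨mem_univ _, ?_⟩, hz, hs⟩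
    rw [mem_lab]
    intro q hq
    by_contra h
    exact hq ((mem_below S).2 (hs q h))
  have hgX := hg X
  calc ∑ b ∈ P.powerset with (S.Fam b ∧ ∃ (x : U) (c : B → k), S.IsSol b x c ∧
        ¬ (x = 0 ∧ c = 0) ∧ ∀ q, c q ≠ 0 → S.bl q < j₀), Real.exp (-(S.nm b / X))
      ≤ ∑ b ∈ P.powerset, ∑ z ∈ Z, (if S.Fam b ∧ S.IsSol b z.1 z.2 then
          Real.exp (-(S.nm b / X)) else 0) := by
        rw [Finset.sum_filter]
        apply Finset.sum_le_sum
        intro b _
        split_ifs with hb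
        · obtain ⟨z, hz, hbz⟩ := hsub b hb
          refine le_trans ?_ (Finset.single_le_sum (f := fun z : U × (B → k) ↦
            (if S.Fam b ∧ S.IsSol b z.1 z.2 then Real.exp (-(S.nm b / X)) else 0))
            (fun i _ ↦ ?_) hz)
          · rw [if_pos hbz]
          · split_ifs
            · exact (Real.exp_pos _).le
            · exact le_refl _
        · apply Finset.sum_nonneg
          intro z _
          split_ifs
          · exact (Real.exp_pos _).le
          · exact le_refl _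
    _ = ∑ z ∈ Z, ∑ b ∈ P.powerset with (S.Fam b ∧ S.IsSol b z.1 z.2),
          Real.exp (-(S.nm b / X)) := by
        rw [Finset.sum_comm]
        apply Finset.sum_congr rfl
        intro z _
        rw [Finset.sum_filter]
    _ ≤ ∑ z ∈ Z, K * Real.exp (-T) * (X * g X) :=
        Finset.sum_le_sum fun z hz ↦ hX₀ z hz X (hXz z hz) P
    _ = Z.card * (K * Real.exp (-T)) * (X * g X) := by
        rw [Finset.sum_const, nsmul_eq_mul]
        ring
    _ ≤ ε * (X * g X) := by
        apply mul_le_mul_of_nonneg_right hT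
        positivity

end Pool.Agent.Helper17.PP0.EX0
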