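import Pool.Agent.Helper17.PP0.Goals

namespace Pool.Agent.Helper17.PP0.EX2

open Finset
open Pool.Agent.Helper17.PP

theorem c_ex2 (hdec : C_DEC) : Pool.Agent.Helper17.PP0.Z_EX2 := by
  classical
  intro p _ B B₀ k U Λ C _ _ _ _ _ _ _ _ _ _ _ S ψ g K hyp
  refine ⟨2 * K ^ 4, ?_⟩
  intro j₀ X P hj₀ hX
  have hX0 : (0 : ℝ) < X := by linarith
  obtain ⟨hdec1, -, -⟩ := hdec B P
  have hN : ∀ q, (0 : ℝ) < S.N q := fun q ↦ by
    have := S.two_le q
    exact_mod_cast (by omega : 0 < S.N q)
  have hN1 : ∀ q, (1 : ℝ) ≤ S.N q := fun q ↦ by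
    have := S.two_le q
    exact_mod_cast (by omega : 1 ≤ S.N q)
  have hg0 : ∀ Y, 0 ≤ g Y := fun Y ↦ le_trans zero_le_one (hyp.g_one Y)
  have hK : (1 : ℝ) ≤ K := by exact_mod_cast hyp.one_le
  -- the condition
  let cond : B → B → Prop := fun q q' ↦ S.bl q = S.bl q' ∧ j₀ ≤ S.bl q
  have nm_erase : ∀ (b : Finset B) (q : B), q ∈ b → S.nm b = S.N q * S.nm (b.erase q) := by
    intro b q hq
    unfold Sys.nm
    rw [Finset.mul_prod_erase b (fun q ↦ S.N q) hq]
  -- step 1
  have step1 : ∑ b ∈ P.powerset with (∃ q ∈ b, ∃ q' ∈ b, q ≠ q' ∧ S.bl q = S.bl q' ∧ j₀ ≤ S.bl q),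
      Real.exp (-(S.nm b / X)) ≤
      ∑ b ∈ P.powerset, ∑ q ∈ b, ∑ q' ∈ b.erase q,
        (if cond q q' then Real.exp (-((S.N q * S.nm (b.erase q) : ℕ) / X)) else 0) := by
    rw [Finset.sum_filter]
    apply Finset.sum_le_sum
    intro b _
    have hnn : ∀ q ∈ b, 0 ≤ ∑ q' ∈ b.erase q,
        (if cond q q' then Real.exp (-((S.N q * S.nm (b.erase q) : ℕ) / X)) else 0) := by
      intro q _
      apply Finset.sum_nonneg
      intro q' _
      split_ifs
      · exact (Real.exp_pos _).le
      · exact le_refl _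
    split_ifs with h
    · obtain ⟨q, hq, q', hq', hne, hbl, hj⟩ := h
      refine le_trans ?_ (Finset.single_le_sum hnn hq)
      have hq'2 : q' ∈ b.erase q := Finset.mem_erase.mpr ⟨fun h ↦ hne h.symm, hq'⟩
      refine le_trans ?_ (Finset.single_le_sum (f := fun q' ↦
        if cond q q' then Real.exp (-((S.N q * S.nm (b.erase q) : ℕ) / X)) else 0) ?_ hq'2)
      · have hc : cond q q' := ⟨hbl, hj⟩
        simp only [if_pos hc]
        rw [nm_erase b q hq]
      · intro q' _
        split_ifs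
        · exact (Real.exp_pos _).le
        · exact le_refl _
    · exact Finset.sum_nonneg hnn
  -- step 2
  have step2 : ∑ b ∈ P.powerset, ∑ q ∈ b, ∑ q' ∈ b.erase q,
        (if cond q q' then Real.exp (-((S.N q * S.nm (b.erase q) : ℕ) / X)) else 0)
      ≤ ∑ q ∈ P, ∑ r ∈ P.powerset, ∑ q' ∈ r,
        (if cond q q' then Real.exp (-((S.N q * S.N q' * S.nm (r.erase q') : ℕ) / X)) else 0) := by
    have h1 := hdec1 ℝ (fun q r ↦ ∑ q' ∈ r,
        (if cond q q' then Real.exp (-((S.N q * S.nm r : ℕ) / X)) else 0))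
    rw [h1, Finset.sum_comm' (t' := P) (s' := fun q ↦ P.powerset.filter fun r ↦ q ∉ r)]
    · apply Finset.sum_le_sum
      intro q _
      refine le_trans (Finset.sum_le_sum_of_subset_of_nonneg (Finset.filter_subset _ _) ?_) ?_
      · intro r _ _
        apply Finset.sum_nonneg
        intro q' _
        split_ifs
        · exact (Real.exp_pos _).le
        · exact le_refl _
      · apply le_of_eq
        apply Finset.sum_congr rfl
        intro r _
        apply Finset.sum_congr rfl
        intro q' hq'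
        rw [nm_erase r q' hq', mul_assoc]
    · intro r q
      simp only [mem_powerset, mem_sdiff, mem_filter]
      tauto
  -- step 3
  have step3 : ∀ q ∈ P, ∑ r ∈ P.powerset, ∑ q' ∈ r,
        (if cond q q' then Real.exp (-((S.N q * S.N q' * S.nm (r.erase q') : ℕ) / X)) else 0)
      ≤ ∑ q' ∈ P, (if cond q q' then ∑ r ∈ P.powerset,
          Real.exp (-((S.N q * S.N q' * S.nm r : ℕ) / X)) else 0) := by
    intro q _
    have h1 := hdec1 ℝ (fun q' r ↦
        (if cond q q' then Real.exp (-((S.N q * S.N q' * S.nm r : ℕ) / X)) else 0))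
    rw [h1, Finset.sum_comm' (t' := P) (s' := fun q ↦ P.powerset.filter fun r ↦ q ∉ r)]
    · apply Finset.sum_le_sum
      intro q' _
      refine le_trans (Finset.sum_le_sum_of_subset_of_nonneg (Finset.filter_subset _ _) ?_) ?_
      · intro r _ _
        split_ifs
        · exact (Real.exp_pos _).le
        · exact le_refl _
      · apply le_of_eq
        split_ifs
        · rfl
        · simp
    · intro r q
      simp only [mem_powerset, mem_sdiff, mem_filter]
      tauto
  -- step 4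
  have step4 : ∀ q q' : B, ∑ r ∈ P.powerset,
      Real.exp (-((S.N q * S.N q' * S.nm r : ℕ) / X)) ≤
        (K : ℝ) ^ 2 * (X * g X) * ((1 / S.N q) * (1 / S.N q')) := by
    intro q q'
    set Y : ℝ := X / (S.N q * S.N q') with hY
    have hNN : (0 : ℝ) < S.N q * S.N q' := mul_pos (hN q) (hN q')
    have hY0 : 0 < Y := div_pos hX0 hNN
    have hYX : Y ≤ X := by
      rw [hY]
      apply div_le_self hX0.le
      nlinarith [hN1 q, hN1 q']
    have h1 := hyp.ht (fun _ ↦ 1) (fun _ ↦ ⟨zero_le_one, by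
      have : (0 : ℝ) ≤ Fintype.card k := by positivity
      linarith⟩) Y hY0 P
    simp only [Finset.prod_const_one, one_mul, sub_self, zero_div, Finset.sum_const_zero,
      Real.exp_zero, mul_one] at h1
    have h2 : ∑ r ∈ P.powerset, Real.exp (-((S.N q * S.N q' * S.nm r : ℕ) / X))
        = ∑ r ∈ P.powerset, Real.exp (-(S.nm r / Y)) := by
      apply Finset.sum_congr rfl
      intro r _
      congr 2
      rw [hY]
      push_cast
      field_simp
    rw [h2]
    refine h1.trans ?_
    have h3 : Y * min 1 Y * g Y ≤ Y * (K * g X) := by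
      rw [mul_assoc]
      apply mul_le_mul_of_nonneg_left _ hY0.le
      have h4 : min 1 Y * g Y ≤ 1 * g Y := mul_le_mul_of_nonneg_right (min_le_left _ _) (hg0 Y)
      have h5 := hyp.g_mono Y X hYX
      linarith
    have h6 : (K : ℝ) * (Y * min 1 Y * g Y) ≤ K * (Y * (K * g X)) :=
      mul_le_mul_of_nonneg_left h3 (by linarith)
    refine h6.trans (le_of_eq ?_)
    rw [hY]
    field_simp
  -- step 5 : the sum of 1/(N q N q')
  have hblk : ∀ q, q ∈ S.blk (S.bl q) := by
    intro q
    unfold Sys.blk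
    rw [Finset.mem_filter]
    refine ⟨?_, rfl⟩
    rw [Set.Finite.mem_toFinset]
    show S.N q ≤ 2 ^ (S.bl q + 1)
    unfold Sys.bl
    exact (Nat.lt_pow_succ_log_self (by norm_num) _).le
  have inner : ∀ q ∈ P, j₀ ≤ S.bl q → ∑ q' ∈ P with S.bl q = S.bl q', (1 : ℝ) / S.N q' ≤
      K / S.bl q := by
    intro q _ hq
    refine le_trans ?_ (hyp.che (S.bl q) (by omega))
    apply Finset.sum_le_sum_of_subset_of_nonneg
    · intro q' hq'
      have h := (Finset.mem_filter.mp hq').2
      rw [h]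
      exact hblk q'
    · intro q' _ _
      have := hN q'
      positivity
  obtain ⟨J, hJ⟩ : ∃ J, ∀ q ∈ P, S.bl q < J := by
    refine ⟨P.sup S.bl + 1, ?_⟩
    intro q hq
    have := Finset.le_sup (f := S.bl) hq
    omega
  have step5 : ∑ q ∈ P, ∑ q' ∈ P, (if cond q q' then ((1 : ℝ) / S.N q) * (1 / S.N q') else 0)
      ≤ 2 * K ^ 2 / j₀ := by
    have h1 : ∀ q ∈ P, ∑ q' ∈ P, (if cond q q' then ((1 : ℝ) / S.N q) * (1 / S.N q') else 0)
        ≤ (if j₀ ≤ S.bl q then ((1 : ℝ) / S.N q) * ((K : ℝ) / S.bl q) else (0 : ℝ)) := by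
      intro q hq
      split_ifs with h
      · have h2 := inner q hq h
        rw [Finset.sum_filter] at h2
        have h3 := mul_le_mul_of_nonneg_left h2 (by have := hN q; positivity : (0 : ℝ) ≤ 1 / S.N q)
        refine le_trans (le_of_eq ?_) h3
        rw [Finset.mul_sum]
        apply Finset.sum_congr rfl
        intro q' _
        by_cases h4 : S.bl q = S.bl q'
        · rw [if_pos (show cond q q' from ⟨h4, h⟩), if_pos h4]
        · rw [if_neg (show ¬ cond q q' from fun hc ↦ h4 hc.1), if_neg h4, mul_zero]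
      · apply le_of_eq
        apply Finset.sum_eq_zero
        intro q' _
        rw [if_neg (show ¬ cond q q' from fun hc ↦ h hc.2)]
    refine (Finset.sum_le_sum h1).trans ?_
    rw [← Finset.sum_filter]
    have h2 : ∑ q ∈ P with j₀ ≤ S.bl q, ((1 : ℝ) / S.N q) * (K / S.bl q)
        = ∑ j ∈ Ico j₀ J, ∑ q ∈ P with (j₀ ≤ S.bl q ∧ S.bl q = j),
          ((1 : ℝ) / S.N q) * (K / S.bl q) := by
      rw [← Finset.sum_fiberwise_of_maps_to (s := P.filter fun q ↦ j₀ ≤ S.bl q) (t := Ico j₀ J)
        (g := S.bl)]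
      · apply Finset.sum_congr rfl
        intro j _
        rw [Finset.filter_filter]
      · intro q hq
        have := Finset.mem_filter.mp hq
        rw [Finset.mem_Ico]
        exact ⟨this.2, hJ q this.1⟩
    rw [h2]
    have h3 : ∀ j ∈ Ico j₀ J, ∑ q ∈ P with (j₀ ≤ S.bl q ∧ S.bl q = j),
          ((1 : ℝ) / S.N q) * (K / S.bl q) ≤ K ^ 2 * ((j : ℝ) ^ 2)⁻¹ := by
      intro j hj
      have hj1 := (Finset.mem_Ico.mp hj).1
      have hj0 : (0 : ℝ) < j := by
        have : 0 < j := by omega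
        exact_mod_cast this
      have h4 : ∑ q ∈ P with (j₀ ≤ S.bl q ∧ S.bl q = j), ((1 : ℝ) / S.N q) * (K / S.bl q)
          = (∑ q ∈ P with (j₀ ≤ S.bl q ∧ S.bl q = j), ((1 : ℝ) / S.N q)) * (K / j) := by
        rw [Finset.sum_mul]
        apply Finset.sum_congr rfl
        intro q hq
        rw [((Finset.mem_filter.mp hq).2).2]
      have h5 : ∑ q ∈ P with (j₀ ≤ S.bl q ∧ S.bl q = j), ((1 : ℝ) / S.N q) ≤ K / j := by
        refine le_trans ?_ (hyp.che j (by omega))
        apply Finset.sum_le_sum_of_subset_of_nonneg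
        · intro q hq
          have h := ((Finset.mem_filter.mp hq).2).2
          have h6 := hblk q
          rw [h] at h6
          exact h6
        · intro q' _ _
          have := hN q'
          positivity
      rw [h4]
      have h7 := mul_le_mul_of_nonneg_right h5 (by positivity : (0 : ℝ) ≤ K / j)
      refine h7.trans (le_of_eq ?_)
      field_simp
    refine (Finset.sum_le_sum h3).trans ?_
    rw [← Finset.mul_sum]
    have h8 := sum_Ioo_inv_sq_le (α := ℝ) (j₀ - 1) J
    have h9 : Ioo (j₀ - 1) J = Ico j₀ J := by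
      ext x
      rw [Finset.mem_Ioo, Finset.mem_Ico]
      omega
    rw [h9, Nat.cast_sub hj₀] at h8
    have h10 : ((j₀ : ℝ) - (1 : ℕ) + 1) = j₀ := by push_cast; ring
    rw [h10] at h8
    have h11 := mul_le_mul_of_nonneg_left h8 (by positivity : (0 : ℝ) ≤ (K : ℝ) ^ 2)
    refine h11.trans (le_of_eq ?_)
    ring
  -- conclusion
  refine step1.trans (step2.trans ((Finset.sum_le_sum step3).trans ?_))
  have fin : ∑ q ∈ P, ∑ q' ∈ P, (if cond q q' then ∑ r ∈ P.powerset,
          Real.exp (-((S.N q * S.N q' * S.nm r : ℕ) / X)) else 0)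
      ≤ ∑ q ∈ P, ∑ q' ∈ P, (K : ℝ) ^ 2 * (X * g X) *
        (if cond q q' then ((1 : ℝ) / S.N q) * (1 / S.N q') else 0) := by
    apply Finset.sum_le_sum
    intro q _
    apply Finset.sum_le_sum
    intro q' _
    split_ifs
    · exact step4 q q'
    · simp
  refine fin.trans ?_
  have e1 : ∑ q ∈ P, ∑ q' ∈ P, (K : ℝ) ^ 2 * (X * g X) *
        (if cond q q' then ((1 : ℝ) / S.N q) * (1 / S.N q') else 0)
      = (K : ℝ) ^ 2 * (X * g X) * ∑ q ∈ P, ∑ q' ∈ P,
        (if cond q q' then ((1 : ℝ) / S.N q) * (1 / S.N q') else 0) := by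
    rw [Finset.mul_sum]
    apply Finset.sum_congr rfl
    intro q _
    rw [Finset.mul_sum]
  rw [e1]
  have h0 : 0 ≤ (K : ℝ) ^ 2 * (X * g X) := by
    have := hg0 X
    positivity
  refine (mul_le_mul_of_nonneg_left step5 h0).trans (le_of_eq ?_)
  push_cast
  ring

end Pool.Agent.Helper17.PP0.EX2
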