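import Pool.Agent.Helper17.PP0.Goals

/-!
# Packet PP-C_EX5 (MP_fc6b1e_nt): the moduli are not too large
-/

namespace Pool.Agent.Helper17.PP0.EX5

open Finset Pool.Agent.Helper17.PP

/-- The quotient of the two thresholds. -/
theorem ratio_ge (E j : ℕ) (hE : 1 ≤ E) :
    (j : ℝ) / (2 * E) ≤ ((tb E j : ℕ) : ℝ) / ((th E j : ℕ) : ℝ) := by
  have hE' : (0 : ℝ) < E := by exact_mod_cast hE
  have h1 : j / (2 * E) = (j / E) / 2 := by
    rw [Nat.div_div_eq_div_mul, mul_comm]
  set a := j / E with ha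
  have h2 : (j : ℝ) ≤ E * (a + 1) := by
    have := Nat.lt_div_mul_add (a := j) (b := E) (by omega)
    have h3 : j ≤ E * (a + 1) := by
      rw [← ha] at this
      nlinarith
    exact_mod_cast h3
  have h4 : ((tb E j : ℕ) : ℝ) / ((th E j : ℕ) : ℝ) = (2 : ℝ) ^ (a - a / 2) := by
    rw [tb, th, h1, ← ha]
    push_cast
    rw [div_eq_iff (by positivity), ← pow_add, Nat.sub_add_cancel (Nat.div_le_self a 2)]
  rw [h4]
  have h5 : ((a - a / 2 : ℕ) : ℝ) + 1 ≤ (2 : ℝ) ^ (a - a / 2) := by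
    exact_mod_cast Nat.lt_two_pow_self (n := a - a / 2)
  have h6 : (a : ℝ) / 2 ≤ ((a - a / 2 : ℕ) : ℝ) := by
    have h7 : a ≤ 2 * (a - a / 2) := by omega
    have h8 : (a : ℝ) ≤ 2 * ((a - a / 2 : ℕ) : ℝ) := by exact_mod_cast h7
    linarith
  calc (j : ℝ) / (2 * E) ≤ (E * (a + 1)) / (2 * E) := by gcongr
    _ = (a + 1) / 2 := by field_simp
    _ ≤ _ := by linarith

section

variable {p : ℕ} {B B₀ k U Λ C : Type} [Field k] [AddCommGroup U] [Module k U]
    [AddCommGroup Λ] [Module k Λ] [AddCommGroup C] (S : Sys p B B₀ k U Λ C)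

open Classical in
/-- Rankin's function. -/
noncomputable def fr (θ : ℕ) (q : B) : ℝ :=
  if S.bl q ≤ θ then Real.exp (Real.log (S.N q) / θ) else 1

theorem logN_nonneg (q : B) : 0 ≤ Real.log (S.N q) := by
  apply Real.log_nonneg
  have := S.two_le q
  exact_mod_cast (by omega : 1 ≤ S.N q)

theorem logN_le (q : B) : Real.log (S.N q) ≤ (S.bl q + 1) * Real.log 2 := by
  have h1 : S.N q < 2 ^ (S.bl q + 1) := Nat.lt_pow_succ_log_self (by norm_num) _
  have h2 : (0 : ℝ) < S.N q := by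
    have := S.two_le q
    exact_mod_cast (by omega : 0 < S.N q)
  calc Real.log (S.N q) ≤ Real.log ((2 : ℝ) ^ (S.bl q + 1)) := by
        apply Real.log_le_log h2
        exact_mod_cast h1.le
    _ = _ := by rw [Real.log_pow]; push_cast; ring

theorem one_le_fr (θ : ℕ) (q : B) : 1 ≤ fr S θ q := by
  unfold fr
  split_ifs
  · rw [← Real.exp_zero]
    apply Real.exp_le_exp.mpr
    exact div_nonneg (logN_nonneg S q) (Nat.cast_nonneg _)
  · exact le_rfl

theorem fr_sub_le (θ : ℕ) (hθ : 1 ≤ θ) (q : B) (hq : S.bl q ≤ θ) :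
    fr S θ q - 1 ≤ 4 * ((S.bl q + 1) / θ) ∧ fr S θ q ≤ 4 := by
  have hθ' : (1 : ℝ) ≤ θ := by exact_mod_cast hθ
  have hθ0 : (0 : ℝ) < θ := by linarith
  have hq' : (S.bl q : ℝ) ≤ θ := by exact_mod_cast hq
  have hl2 : Real.log 2 ≤ 1 := by
    have := Real.log_two_lt_d9
    linarith
  have hl0 : 0 < Real.log 2 := Real.log_pos (by norm_num)
  rw [fr, if_pos hq]
  set u := Real.log (S.N q) / θ with hu
  have hu0 : 0 ≤ u := div_nonneg (logN_nonneg S q) hθ0.le
  have hu1 : u ≤ (S.bl q + 1) / θ * Real.log 2 := by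
    rw [hu, div_mul_eq_mul_div]
    exact div_le_div_of_nonneg_right (logN_le S q) hθ0.le
  have hu2 : (S.bl q + 1) / (θ : ℝ) ≤ 2 := by
    rw [div_le_iff₀ hθ0]
    linarith
  have hb0 : (0 : ℝ) ≤ S.bl q := Nat.cast_nonneg _
  have h4 : Real.exp u ≤ 4 := by
    have : u ≤ Real.log 4 := by
      have h5 : Real.log 4 = 2 * Real.log 2 := by
        rw [show (4 : ℝ) = 2 ^ 2 by norm_num, Real.log_pow]
        norm_num
      rw [h5]
      exact hu1.trans (mul_le_mul_of_nonneg_right hu2 hl0.le)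
    calc Real.exp u ≤ Real.exp (Real.log 4) := Real.exp_le_exp.mpr this
      _ = 4 := Real.exp_log (by norm_num)
  refine ⟨?_, h4⟩
  have h6 : Real.exp u - 1 ≤ u * Real.exp u := by
    have h7 := Real.add_one_le_exp (-u)
    have h8 : Real.exp u * Real.exp (-u) = 1 := by
      rw [← Real.exp_add, add_neg_cancel, Real.exp_zero]
    nlinarith [Real.exp_pos u]
  have h9 : u ≤ (S.bl q + 1) / θ := by
    refine hu1.trans ?_
    have : (0 : ℝ) ≤ (S.bl q + 1) / θ := by positivity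
    nlinarith
  calc Real.exp u - 1 ≤ u * Real.exp u := h6
    _ ≤ u * 4 := mul_le_mul_of_nonneg_left h4 hu0
    _ ≤ 4 * ((S.bl q + 1) / θ) := by linarith

theorem bl_pos (q : B) : 1 ≤ S.bl q := by
  unfold Sys.bl
  exact Nat.log_pos (by norm_num) (S.two_le q)

theorem mem_blk (q : B) (j : ℕ) : q ∈ S.blk j ↔ S.bl q = j := by
  classical
  unfold Sys.blk
  rw [Finset.mem_filter]
  constructor
  · exact fun h => h.2
  · intro h
    refine ⟨?_, h⟩
    rw [Set.Finite.mem_toFinset]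
    have h1 : S.N q < 2 ^ (S.bl q + 1) := Nat.lt_pow_succ_log_self (by norm_num) _
    rw [h] at h1
    exact h1.le

theorem sum_fr_le {K θ : ℕ} (hθ : 1 ≤ θ)
    (che : ∀ j : ℕ, 1 ≤ j → ∑ q ∈ S.blk j, (1 : ℝ) / S.N q ≤ K / j) (Y : ℝ) :
    ∑ q ∈ S.upto Y, (fr S θ q - 1) / S.N q ≤ 8 * K := by
  classical
  have hθ' : (1 : ℝ) ≤ θ := by exact_mod_cast hθ
  have hN : ∀ q : B, (0 : ℝ) < S.N q := by
    intro q
    have := S.two_le q
    exact_mod_cast (by omega : 0 < S.N q)
  calc ∑ q ∈ S.upto Y, (fr S θ q - 1) / S.N q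
      ≤ ∑ q ∈ S.upto Y, (if S.bl q ≤ θ then 4 * ((S.bl q + 1) / (θ : ℝ)) * (1 / S.N q) else 0) := by
        apply Finset.sum_le_sum
        intro q _
        split_ifs with h
        · rw [div_eq_mul_one_div]
          exact mul_le_mul_of_nonneg_right (fr_sub_le S θ hθ q h).1 (by have := hN q; positivity)
        · simp [fr, h]
    _ = ∑ q ∈ (S.upto Y).filter (fun q ↦ S.bl q ≤ θ),
          4 * ((S.bl q + 1) / (θ : ℝ)) * (1 / S.N q) := by
        rw [Finset.sum_filter]
    _ = ∑ m ∈ Icc 1 θ, ∑ q ∈ ((S.upto Y).filter (fun q ↦ S.bl q ≤ θ)).filter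
          (fun q ↦ S.bl q = m), 4 * ((S.bl q + 1) / (θ : ℝ)) * (1 / S.N q) := by
        rw [Finset.sum_fiberwise_of_maps_to]
        intro q hq
        rw [Finset.mem_filter] at hq
        rw [Finset.mem_Icc]
        exact ⟨bl_pos S q, hq.2⟩
    _ ≤ ∑ m ∈ Icc 1 θ, ∑ q ∈ S.blk m, 4 * ((m + 1) / (θ : ℝ)) * (1 / S.N q) := by
        apply Finset.sum_le_sum
        intro m _
        have h1 : ∑ q ∈ ((S.upto Y).filter (fun q ↦ S.bl q ≤ θ)).filter
            (fun q ↦ S.bl q = m), 4 * ((S.bl q + 1) / (θ : ℝ)) * (1 / S.N q) =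
            ∑ q ∈ ((S.upto Y).filter (fun q ↦ S.bl q ≤ θ)).filter
            (fun q ↦ S.bl q = m), 4 * ((m + 1) / (θ : ℝ)) * (1 / S.N q) := by
          apply Finset.sum_congr rfl
          intro q hq
          rw [(Finset.mem_filter.mp hq).2]
        rw [h1]
        apply Finset.sum_le_sum_of_subset_of_nonneg
        · intro q hq
          rw [mem_blk]
          exact (Finset.mem_filter.mp hq).2
        · intro q _ _
          have := hN q
          positivity
    _ ≤ ∑ m ∈ Icc 1 θ, 8 * (K : ℝ) / θ := by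
        apply Finset.sum_le_sum
        intro m hm
        have hm1 : 1 ≤ m := (Finset.mem_Icc.mp hm).1
        have hm' : (1 : ℝ) ≤ m := by exact_mod_cast hm1
        rw [← Finset.mul_sum]
        calc 4 * (((m : ℝ) + 1) / θ) * ∑ q ∈ S.blk m, (1 : ℝ) / S.N q
            ≤ 4 * (((m : ℝ) + 1) / θ) * (K / m) :=
              mul_le_mul_of_nonneg_left (che m hm1) (by positivity)
          _ ≤ 8 * (K : ℝ) / θ := by
              have h2 : 4 * (((m : ℝ) + 1) / θ) * (K / m) = 4 * K / θ * ((m + 1) / m) := by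
                field_simp
              have h3 : ((m : ℝ) + 1) / m ≤ 2 := by
                rw [div_le_iff₀ (by linarith)]
                linarith
              rw [h2]
              calc 4 * (K : ℝ) / θ * ((m + 1) / m) ≤ 4 * K / θ * 2 :=
                    mul_le_mul_of_nonneg_left h3 (by positivity)
                _ = _ := by ring
    _ = 8 * K := by
        rw [Finset.sum_const, Nat.card_Icc]
        simp only [Nat.add_sub_cancel, nsmul_eq_mul]
        field_simp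

theorem sum_rho_le {K : ℕ} (che : ∀ j : ℕ, 1 ≤ j → ∑ q ∈ S.blk j, (1 : ℝ) / S.N q ≤ K / j)
    (ρ : ℝ) (h0 : 0 < ρ) (h1 : ρ < 1) (j₀ : ℕ) (hj : 1 ≤ j₀) (P : Finset B) :
    ∑ q ∈ P, (if j₀ ≤ S.bl q then ρ ^ S.bl q * (1 / S.N q) else 0) ≤ K * (ρ ^ j₀ / (1 - ρ)) := by
  classical
  have hN : ∀ q : B, (0 : ℝ) < S.N q := by
    intro q
    have := S.two_le q
    exact_mod_cast (by omega : 0 < S.N q)
  obtain ⟨J, hJ⟩ : ∃ J : ℕ, ∀ q ∈ P, S.bl q < J := by
    refine ⟨P.sup S.bl + 1, fun q hq ↦ ?_⟩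
    exact Nat.lt_succ_of_le (Finset.le_sup (f := S.bl) hq)
  rw [← Finset.sum_filter]
  calc ∑ q ∈ P.filter (fun q ↦ j₀ ≤ S.bl q), ρ ^ S.bl q * (1 / (S.N q : ℝ))
      = ∑ m ∈ Ico j₀ J, ∑ q ∈ (P.filter (fun q ↦ j₀ ≤ S.bl q)).filter (fun q ↦ S.bl q = m),
          ρ ^ S.bl q * (1 / (S.N q : ℝ)) := by
        rw [Finset.sum_fiberwise_of_maps_to]
        intro q hq
        rw [Finset.mem_filter] at hq
        rw [Finset.mem_Ico]
        exact ⟨hq.2, hJ q hq.1⟩
    _ ≤ ∑ m ∈ Ico j₀ J, ∑ q ∈ S.blk m, ρ ^ m * (1 / (S.N q : ℝ)) := by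
        apply Finset.sum_le_sum
        intro m _
        have h1 : ∑ q ∈ (P.filter (fun q ↦ j₀ ≤ S.bl q)).filter (fun q ↦ S.bl q = m),
            ρ ^ S.bl q * (1 / (S.N q : ℝ)) =
            ∑ q ∈ (P.filter (fun q ↦ j₀ ≤ S.bl q)).filter (fun q ↦ S.bl q = m),
            ρ ^ m * (1 / (S.N q : ℝ)) := by
          apply Finset.sum_congr rfl
          intro q hq
          rw [(Finset.mem_filter.mp hq).2]
        rw [h1]
        apply Finset.sum_le_sum_of_subset_of_nonneg
        · intro q hq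
          rw [mem_blk]
          exact (Finset.mem_filter.mp hq).2
        · intro q _ _
          have := hN q
          positivity
    _ ≤ ∑ m ∈ Ico j₀ J, K * ρ ^ m := by
        apply Finset.sum_le_sum
        intro m hm
        have hm1 : 1 ≤ m := hj.trans (Finset.mem_Ico.mp hm).1
        have hm' : (1 : ℝ) ≤ m := by exact_mod_cast hm1
        rw [← Finset.mul_sum, mul_comm]
        apply mul_le_mul_of_nonneg_right _ (by positivity)
        refine (che m hm1).trans ?_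
        rw [div_le_iff₀ (by linarith)]
        have : (0 : ℝ) ≤ K := Nat.cast_nonneg _
        nlinarith
    _ = K * ∑ m ∈ Ico j₀ J, ρ ^ m := by rw [Finset.mul_sum]
    _ ≤ K * (ρ ^ j₀ / (1 - ρ)) := by
        apply mul_le_mul_of_nonneg_left _ (Nat.cast_nonneg _)
        rcases le_total j₀ J with h | h
        · rw [geom_sum_Ico' h1.ne h]
          apply div_le_div_of_nonneg_right _ (by linarith)
          have : 0 < ρ ^ J := by positivity
          linarith
        · rw [Finset.Ico_eq_empty_of_le h, Finset.sum_empty]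
          have : 0 < 1 - ρ := by linarith
          positivity

open Classical in
theorem key (E : ℕ) (hE : 1 ≤ E) (b D : Finset B) (q : B) (hD : D ⊆ b) (hq : q ∉ D)
    (h1 : ∀ q' ∈ D, S.bl q' ≤ th E (S.bl q)) (h2 : 2 ^ tb E (S.bl q) ≤ S.nm D) :
    1 ≤ Real.exp (-(Real.log 2 / (2 * E))) ^ S.bl q *
      ∏ q' ∈ b.erase q, fr S (th E (S.bl q)) q' := by
  set j := S.bl q with hj
  have hθ0 : (0 : ℝ) < ((th E j : ℕ) : ℝ) := by
    rw [th]; positivity
  have hl0 : 0 < Real.log 2 := Real.log_pos (by norm_num)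
  have hN : ∀ q : B, (0 : ℝ) < S.N q := by
    intro q
    have := S.two_le q
    exact_mod_cast (by omega : 0 < S.N q)
  have hsub : D ⊆ b.erase q := fun x hx ↦
    Finset.mem_erase.mpr ⟨fun h ↦ hq (h ▸ hx), hD hx⟩
  have h3 : ∏ q' ∈ D, fr S (th E j) q' ≤ ∏ q' ∈ b.erase q, fr S (th E j) q' := by
    rw [← Finset.prod_sdiff hsub]
    have h30 : (0 : ℝ) ≤ ∏ q' ∈ D, fr S (th E j) q' :=
      Finset.prod_nonneg fun x _ ↦ zero_le_one.trans (one_le_fr S _ x)
    have h31 : (1 : ℝ) ≤ ∏ q' ∈ b.erase q \ D, fr S (th E j) q' := by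
      have := Finset.prod_le_prod (s := b.erase q \ D) (f := fun _ ↦ (1 : ℝ))
        (g := fr S (th E j)) (fun _ _ ↦ zero_le_one) (fun x _ ↦ one_le_fr S _ x)
      simpa using this
    nlinarith
  have h4 : ∏ q' ∈ D, fr S (th E j) q' = Real.exp (Real.log (S.nm D) / th E j) := by
    rw [Sys.nm]
    push_cast
    rw [Real.log_prod (fun x _ ↦ (hN x).ne'), Finset.sum_div, Real.exp_sum]
    apply Finset.prod_congr rfl
    intro x hx
    rw [fr, if_pos (h1 x hx)]
  have h5 : (tb E j : ℕ) * Real.log 2 ≤ Real.log (S.nm D) := by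
    rw [← Real.log_pow]
    apply Real.log_le_log (by positivity)
    exact_mod_cast h2
  have h6 := ratio_ge E j hE
  rw [← Real.exp_nat_mul]
  calc (1 : ℝ) = Real.exp 0 := Real.exp_zero.symm
    _ ≤ Real.exp ((j : ℝ) * -(Real.log 2 / (2 * E)) + Real.log (S.nm D) / th E j) := by
        apply Real.exp_le_exp.mpr
        have h7 : ((tb E j : ℕ) : ℝ) / th E j * Real.log 2 ≤ Real.log (S.nm D) / th E j := by
          rw [div_mul_eq_mul_div]
          exact div_le_div_of_nonneg_right h5 hθ0.le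
        have h8 := mul_le_mul_of_nonneg_right h6 hl0.le
        have h9 : (j : ℝ) * -(Real.log 2 / (2 * E)) = -((j : ℝ) / (2 * E) * Real.log 2) := by
          ring
        rw [h9]
        linarith
    _ = Real.exp ((j : ℝ) * -(Real.log 2 / (2 * E))) * ∏ q' ∈ D, fr S (th E j) q' := by
        rw [h4, Real.exp_add]
    _ ≤ _ := mul_le_mul_of_nonneg_left h3 (Real.exp_pos _).le

end

open Classical in
/-- **C_EX5**. -/
theorem c_ex5 (hdec : C_DEC) : Pool.Agent.Helper17.PP0.Z_EX5 := by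
  intro p _ B B₀ k U Λ C _ _ _ _ _ _ _ _ _ _ _ S ψ g K hH E ε hE hε
  have hE' : (0 : ℝ) < E := by exact_mod_cast hE
  have hl0 : 0 < Real.log 2 := Real.log_pos (by norm_num)
  have hN : ∀ q : B, (0 : ℝ) < S.N q := by
    intro q
    have := S.two_le q
    exact_mod_cast (by omega : 0 < S.N q)
  set ρ : ℝ := Real.exp (-(Real.log 2 / (2 * E))) with hρ
  have hρ0 : 0 < ρ := Real.exp_pos _
  have hρ1 : ρ < 1 := by
    rw [hρ, Real.exp_lt_one_iff, neg_lt_zero]
    positivity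
  have hK : (1 : ℝ) ≤ K := by exact_mod_cast hH.one_le
  have hρ2 : 0 < 1 - ρ := by linarith
  set C0 : ℝ := K ^ 3 * Real.exp (8 * K) / (1 - ρ) with hC0
  have hC0' : 0 < C0 := by positivity
  obtain ⟨n, hn⟩ := exists_pow_lt_of_lt_one (div_pos hε hC0') hρ1
  refine ⟨max n 1, fun j₀ hj X hX P ↦ ?_⟩
  have hj1 : 1 ≤ j₀ := (le_max_right _ _).trans hj
  have hρj : ρ ^ j₀ ≤ ε / C0 :=
    (pow_le_pow_of_le_one hρ0.le hρ1.le ((le_max_left _ _).trans hj)).trans hn.le
  have hX0 : 0 < X := by linarith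
  have hg : 0 < g X := lt_of_lt_of_le zero_lt_one (hH.g_one X)
  set F : B → Finset B → ℝ := fun q r ↦ if j₀ ≤ S.bl q then
     ρ ^ S.bl q * ((∏ q' ∈ r, fr S (th E (S.bl q)) q') *
      Real.exp (-(S.nm r / (X / S.N q)))) else 0 with hF
  have hFn : ∀ q r, 0 ≤ F q r := by
    intro q r
    rw [hF]
    dsimp only
    split_ifs
    · have : 0 ≤ ∏ q' ∈ r, fr S (th E (S.bl q)) q' :=
        Finset.prod_nonneg fun x _ ↦ zero_le_one.trans (one_le_fr S _ x)
      positivity
    · exact le_rfl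
  have step1 : ∑ b ∈ P.powerset with (∃ q ∈ b, j₀ ≤ S.bl q ∧ ∃ D ⊆ b, q ∉ D ∧
      (∀ q' ∈ D, S.bl q' ≤ th E (S.bl q)) ∧ 2 ^ tb E (S.bl q) ≤ S.nm D),
      Real.exp (-(S.nm b / X)) ≤ ∑ b ∈ P.powerset, ∑ q ∈ b, F q (b.erase q) := by
    rw [Finset.sum_filter]
    apply Finset.sum_le_sum
    intro b _
    split_ifs with h
    · obtain ⟨q, hq, h1, D, hD, h2, h3, h4⟩ := h
      refine le_trans ?_ (Finset.single_le_sum (f := fun q ↦ F q (b.erase q))
        (fun q _ ↦ hFn q _) hq)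
      have hk := key S E hE b D q hD h2 h3 h4
      rw [← hρ] at hk
      simp only [hF, if_pos h1]
      have h5 : (S.nm b : ℝ) / X = S.nm (b.erase q) / (X / S.N q) := by
        rw [Sys.nm, ← Finset.mul_prod_erase b S.N hq, ← Sys.nm]
        push_cast
        have := hN q
        field_simp
      rw [h5, ← mul_assoc]
      exact le_mul_of_one_le_left (Real.exp_pos _).le hk
    · exact Finset.sum_nonneg fun q _ ↦ hFn q _
  have step2 : ∑ b ∈ P.powerset, ∑ q ∈ b, F q (b.erase q) ≤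
      ∑ q ∈ P, ∑ r ∈ P.powerset, F q r := by
    rw [(hdec B P).1 ℝ F, Finset.sum_comm (s := P)]
    apply Finset.sum_le_sum
    intro r _
    exact Finset.sum_le_sum_of_subset_of_nonneg Finset.sdiff_subset fun q _ _ ↦ hFn q r
  have step3 : ∀ q ∈ P, ∑ r ∈ P.powerset, F q r ≤
      (if j₀ ≤ S.bl q then ρ ^ S.bl q * (1 / (S.N q : ℝ)) else 0) *
        (K ^ 2 * Real.exp (8 * K) * (X * g X)) := by
    intro q _
    by_cases hq : j₀ ≤ S.bl q
    · simp only [hF, if_pos hq]
      rw [← Finset.mul_sum]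
      set θ := th E (S.bl q) with hθ
      have hθ1 : 1 ≤ θ := by
        rw [hθ, th]
        exact Nat.one_le_two_pow
      have hNq := hN q
      have hN1 : (1 : ℝ) ≤ S.N q := by
        have := S.two_le q
        exact_mod_cast (by omega : 1 ≤ S.N q)
      have hY : 0 < X / S.N q := div_pos hX0 hNq
      have h1 := hH.ht (fr S θ) (fun x ↦ ⟨zero_le_one.trans (one_le_fr S _ x), by
        have hc : (0 : ℝ) ≤ Fintype.card k := Nat.cast_nonneg _
        by_cases hx : S.bl x ≤ θ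
        · have := (fr_sub_le S θ hθ1 x hx).2
          linarith
        · rw [fr, if_neg hx]
          linarith⟩) (X / S.N q) hY P
      have hgY0 : 0 < g (X / S.N q) := lt_of_lt_of_le zero_lt_one (hH.g_one _)
      have hgY : g (X / S.N q) ≤ K * g X := hH.g_mono _ _ (div_le_self hX0.le hN1)
      have h2 : ∑ r ∈ P.powerset, (∏ q' ∈ r, fr S θ q') *
          Real.exp (-(S.nm r / (X / S.N q))) ≤
          K * (X / S.N q * 1 * (K * g X)) * Real.exp (8 * K) := by
        refine h1.trans ?_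
        have h3 : Real.exp (∑ x ∈ S.upto (X / S.N q), (fr S θ x - 1) / S.N x) ≤
            Real.exp (8 * K) := Real.exp_le_exp.mpr (sum_fr_le S hθ1 hH.che _)
        have h4 : min 1 (X / (S.N q : ℝ)) ≤ 1 := min_le_left _ _
        have h5 : 0 ≤ min 1 (X / (S.N q : ℝ)) := le_min zero_le_one hY.le
        gcongr
      calc ρ ^ S.bl q * ∑ r ∈ P.powerset, (∏ q' ∈ r, fr S θ q') *
            Real.exp (-(S.nm r / (X / S.N q)))
          ≤ ρ ^ S.bl q * (K * (X / S.N q * 1 * (K * g X)) * Real.exp (8 * K)) :=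
            mul_le_mul_of_nonneg_left h2 (by positivity)
        _ = _ := by ring
    · simp only [hF, if_neg hq, Finset.sum_const_zero, zero_mul, le_refl]
  refine step1.trans (step2.trans ((Finset.sum_le_sum step3).trans ?_))
  rw [← Finset.sum_mul]
  have h1 := sum_rho_le S hH.che ρ hρ0 hρ1 j₀ hj1 P
  calc (∑ q ∈ P, if j₀ ≤ S.bl q then ρ ^ S.bl q * (1 / (S.N q : ℝ)) else 0) *
        (K ^ 2 * Real.exp (8 * K) * (X * g X))
      ≤ (K * (ρ ^ j₀ / (1 - ρ))) * (K ^ 2 * Real.exp (8 * K) * (X * g X)) :=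
        mul_le_mul_of_nonneg_right h1 (by positivity)
    _ = C0 * ρ ^ j₀ * (X * g X) := by rw [hC0]; ring
    _ ≤ C0 * (ε / C0) * (X * g X) := by
        apply mul_le_mul_of_nonneg_right _ (by positivity)
        exact mul_le_mul_of_nonneg_left hρj hC0'.le
    _ = ε * (X * g X) := by
        rw [mul_div_cancel₀ _ hC0'.ne']

end Pool.Agent.Helper17.PP0.EX5
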