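import Pool.Agent.Helper17.PP0.Goals

/-!
# Project PP, part C, packet EX6: no huge prime
-/

set_option autoImplicit false

namespace Pool.Agent.Helper17.PP0.EX6

open Finset Pool.Agent.Helper17.PP

theorem exp_growth (c : ℝ) : ∃ u₀ : ℕ, ∀ u : ℕ, u₀ ≤ u → c * ((u : ℝ) + 1) ^ 2 ≤ 2 ^ u := by
  have h := tendsto_pow_const_div_const_pow_of_one_lt 2 (r := (2 : ℝ)) (by norm_num)
  have hc : (0 : ℝ) < 1 / (2 * (|c| + 1)) := by positivity
  have h1 := (h.eventually (gt_mem_nhds hc)).exists_forall_of_atTop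
  obtain ⟨u₀, hu⟩ := h1
  refine ⟨u₀, fun u huu => ?_⟩
  have h2 := hu (u + 1) (by omega)
  rw [div_lt_div_iff₀ (by positivity) (by positivity)] at h2
  push_cast at h2
  have h5 : (2 : ℝ) ^ (u + 1) = 2 ^ u * 2 := pow_succ _ _
  rw [h5] at h2
  have h3 : c ≤ |c| + 1 := by
    have := le_abs_self c
    linarith
  have h4 : c * ((u : ℝ) + 1) ^ 2 ≤ (|c| + 1) * ((u : ℝ) + 1) ^ 2 :=
    mul_le_mul_of_nonneg_right h3 (by positivity)
  linarith

theorem th_large (E : ℕ) (hE : 1 ≤ E) : ∃ X₀ : ℝ, ∀ X : ℝ, X₀ ≤ X →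
    2 * (lg X + 1) ≤ th E (Nat.sqrt (lg X)) := by
  obtain ⟨u₀, hu⟩ := exp_growth (8 * (E : ℝ) ^ 2)
  refine ⟨((2 ^ ((2 * E * u₀) ^ 2) : ℕ) : ℝ), fun X hX => ?_⟩
  have hX0 : 0 ≤ X := le_trans (Nat.cast_nonneg _) hX
  have h1 : 2 ^ ((2 * E * u₀) ^ 2) ≤ ⌊X⌋₊ := Nat.le_floor hX
  have h2 : (2 * E * u₀) ^ 2 ≤ lg X := by
    unfold lg
    have h3 : ⌊X⌋₊ ≠ 0 := by
      have : 0 < 2 ^ ((2 * E * u₀) ^ 2) := by positivity
      omega
    exact Nat.le_log_of_pow_le (by norm_num) h1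
  set l := lg X with hl
  set s := Nat.sqrt l with hs
  have h3 : 2 * E * u₀ ≤ s := by
    rw [hs]
    exact Nat.le_sqrt'.2 h2
  have h4 : l + 1 ≤ (s + 1) ^ 2 := by
    have := Nat.lt_succ_sqrt' l
    rw [← hs] at this
    exact this
  have h2E : 0 < 2 * E := by omega
  set u := s / (2 * E) with hu'
  have h5 : u₀ ≤ u := by
    rw [hu', Nat.le_div_iff_mul_le h2E]
    calc u₀ * (2 * E) = 2 * E * u₀ := by ring
      _ ≤ s := h3
  have h6 : s + 1 ≤ 2 * E * (u + 1) := by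
    have h7 := Nat.div_add_mod s (2 * E)
    have h8 := Nat.mod_lt s h2E
    rw [← hu'] at h7
    have h9 : 2 * E * (u + 1) = 2 * E * u + 2 * E := by ring
    omega
  have h7 := hu u h5
  have h8 : 8 * E ^ 2 * (u + 1) ^ 2 ≤ 2 ^ u := by exact_mod_cast h7
  unfold th
  calc 2 * (l + 1) ≤ 2 * (s + 1) ^ 2 := by omega
    _ ≤ 2 * (2 * E * (u + 1)) ^ 2 := Nat.mul_le_mul_left 2 (Nat.pow_le_pow_left h6 2)
    _ = 8 * E ^ 2 * (u + 1) ^ 2 := by ring
    _ ≤ 2 ^ u := h8

theorem lt_two_pow_lg (X : ℝ) : X < 2 ^ (lg X + 1) := by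
  have h1 : ⌊X⌋₊ < 2 ^ (lg X + 1) := by
    unfold lg
    exact Nat.lt_pow_succ_log_self (by norm_num) _
  have h2 : X < ⌊X⌋₊ + 1 := Nat.lt_floor_add_one X
  have h3 : ((⌊X⌋₊ + 1 : ℕ) : ℝ) ≤ ((2 ^ (lg X + 1) : ℕ) : ℝ) := by exact_mod_cast h1
  push_cast at h3
  linarith

theorem geom_bound (θ M : ℕ) : ∑ m ∈ Finset.Ioc θ M, ((1 : ℝ) / 2) ^ m ≤ (1 / 2) ^ θ := by
  rcases Nat.lt_or_ge M θ with h | h
  · rw [Finset.Ioc_eq_empty (by omega), Finset.sum_empty]
    positivity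
  · have key : ∀ n : ℕ, ∑ m ∈ Finset.Ioc θ (θ + n), ((1 : ℝ) / 2) ^ m =
        (1 / 2) ^ θ - (1 / 2) ^ (θ + n) := by
      intro n
      induction n with
      | zero => simp
      | succ n ih =>
        rw [← add_assoc, Finset.sum_Ioc_succ_top (by omega), ih, pow_succ]
        ring
    obtain ⟨n, rfl⟩ := Nat.exists_eq_add_of_le h
    rw [key]
    have : (0 : ℝ) ≤ (1 / 2) ^ (θ + n) := by positivity
    linarith

open Classical in
theorem sum_inv_sq {p : ℕ} {B B₀ k U Λ C : Type} [Field k] [AddCommGroup U] [Module k U]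
    [AddCommGroup Λ] [Module k Λ] [AddCommGroup C] (S : Sys p B B₀ k U Λ C) (K : ℕ)
    (che : ∀ j : ℕ, 1 ≤ j → ∑ q ∈ S.blk j, (1 : ℝ) / S.N q ≤ K / j) (θ : ℕ) (P : Finset B) :
    ∑ q ∈ P with θ < S.bl q, (1 : ℝ) / (S.N q : ℝ) ^ 2 ≤ K * (1 / 2) ^ θ := by
  set M := P.sup S.bl with hM
  have hmap : ∀ q ∈ P.filter (fun q => θ < S.bl q), S.bl q ∈ Finset.Ioc θ M := by
    intro q hq
    rw [mem_filter] at hq
    rw [Finset.mem_Ioc]
    exact ⟨hq.2, Finset.le_sup (f := S.bl) hq.1⟩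
  rw [← Finset.sum_fiberwise_of_maps_to hmap]
  have hm : ∀ m ∈ Finset.Ioc θ M, ∑ q ∈ (P.filter (fun q => θ < S.bl q)).filter
      (fun q => S.bl q = m), (1 : ℝ) / (S.N q : ℝ) ^ 2 ≤ K * (1 / 2) ^ m := by
    intro m hm
    have hm1 : 1 ≤ m := by
      rw [Finset.mem_Ioc] at hm
      omega
    have h1 : ∑ q ∈ (P.filter (fun q => θ < S.bl q)).filter (fun q => S.bl q = m),
        (1 : ℝ) / (S.N q : ℝ) ^ 2 ≤ ∑ q ∈ S.blk m, (1 / 2) ^ m * ((1 : ℝ) / S.N q) := by
      refine le_trans (Finset.sum_le_sum (g := fun q => (1 / 2) ^ m * ((1 : ℝ) / S.N q)) ?_)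
        (Finset.sum_le_sum_of_subset_of_nonneg ?_ ?_)
      · intro q hq
        rw [mem_filter] at hq
        have hN0 : 0 < S.N q := by
          have := S.two_le q
          omega
        have hN : (0 : ℝ) < S.N q := by exact_mod_cast hN0
        have h2 : 2 ^ m ≤ S.N q := by
          rw [← hq.2]
          exact Nat.pow_log_le_self 2 (by omega)
        have h3 : (2 : ℝ) ^ m ≤ S.N q := by exact_mod_cast h2
        rw [sq, ← one_div_mul_one_div]
        refine mul_le_mul_of_nonneg_right ?_ (by positivity)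
        rw [one_div_pow]
        exact one_div_le_one_div_of_le (by positivity) h3
      · intro q hq
        rw [mem_filter] at hq
        unfold Sys.blk
        rw [mem_filter, Set.Finite.mem_toFinset]
        refine ⟨?_, hq.2⟩
        have h2 : S.N q < 2 ^ (S.bl q + 1) := Nat.lt_pow_succ_log_self (by norm_num) _
        rw [hq.2] at h2
        exact h2.le
      · intro q _ _
        positivity
    refine h1.trans ?_
    rw [← Finset.mul_sum, mul_comm]
    refine mul_le_mul_of_nonneg_right ((che m hm1).trans ?_) (by positivity)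
    exact div_le_self (by positivity) (by exact_mod_cast hm1)
  refine (Finset.sum_le_sum hm).trans ?_
  rw [← Finset.mul_sum]
  exact mul_le_mul_of_nonneg_left (geom_bound θ M) (by positivity)

open Classical in
theorem c_ex6 (hdec : C_DEC) : Pool.Agent.Helper17.PP0.Z_EX6 := by
  intro p _ B B₀ k U Λ C _ _ _ _ _ _ _ _ _ _ _ S ψ g K hH E ε hE hε
  obtain ⟨X₁, hX₁⟩ := th_large E hE
  refine ⟨max X₁ (max 1 ((K : ℝ) ^ 3 / ε)), fun X hX P => ?_⟩
  have hXX₁ : X₁ ≤ X := le_trans (le_max_left _ _) hX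
  have hX1 : 1 ≤ X := le_trans (le_trans (le_max_left _ _) (le_max_right _ _)) hX
  have hXK : (K : ℝ) ^ 3 / ε ≤ X := le_trans (le_trans (le_max_right _ _) (le_max_right _ _)) hX
  have hX0 : 0 < X := by linarith
  have hth := hX₁ X hXX₁
  set θ := th E (Nat.sqrt (lg X)) with hθ
  have hg1 : 1 ≤ g X := hH.g_one X
  -- the pair sum
  set G : B → Finset B → ℝ := fun q r =>
    if θ < S.bl q then Real.exp (-((S.N q : ℝ) * S.nm r / X)) else 0 with hG
  have hG0 : ∀ q r, 0 ≤ G q r := by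
    intro q r
    simp only [hG]
    split_ifs
    · exact (Real.exp_pos _).le
    · exact le_rfl
  have hA : ∑ b ∈ P.powerset with (∃ q ∈ b, θ < S.bl q), Real.exp (-(S.nm b / X)) ≤
      ∑ b ∈ P.powerset, ∑ q ∈ b, G q (b.erase q) := by
    rw [Finset.sum_filter]
    apply Finset.sum_le_sum
    intro b _
    split_ifs with h
    · obtain ⟨q, hq, hqθ⟩ := h
      refine le_trans (le_of_eq ?_)
        (Finset.single_le_sum (f := fun q => G q (b.erase q)) (fun q _ => hG0 q _) hq)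
      simp only [hG, if_pos hqθ]
      have h1 : S.nm b = S.N q * S.nm (b.erase q) := by
        unfold Sys.nm
        exact (Finset.mul_prod_erase b S.N hq).symm
      rw [h1]
      push_cast
      rfl
    · exact Finset.sum_nonneg fun q _ => hG0 q _
  have hB : ∑ b ∈ P.powerset, ∑ q ∈ b, G q (b.erase q) =
      ∑ r ∈ P.powerset, ∑ q ∈ P \ r, G q r := (hdec B P).1 ℝ G
  have hC : ∑ r ∈ P.powerset, ∑ q ∈ P \ r, G q r ≤ ∑ q ∈ P, ∑ r ∈ P.powerset, G q r := by
    rw [Finset.sum_comm (s := P)]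
    apply Finset.sum_le_sum
    intro r _
    exact Finset.sum_le_sum_of_subset_of_nonneg Finset.sdiff_subset fun q _ _ => hG0 q r
  have hD : ∀ q ∈ P, ∑ r ∈ P.powerset, G q r ≤
      if θ < S.bl q then (K : ℝ) ^ 2 * X ^ 2 * g X * (1 / (S.N q : ℝ) ^ 2) else 0 := by
    intro q _
    by_cases hq : θ < S.bl q
    · simp only [hG, if_pos hq]
      have hN2 := S.two_le q
      have hN : (0 : ℝ) < S.N q := by
        have : 0 < S.N q := by omega
        exact_mod_cast this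
      have hN1 : (1 : ℝ) ≤ S.N q := by
        have : 1 ≤ S.N q := by omega
        exact_mod_cast this
      have hY : 0 < X / S.N q := by positivity
      have hYX : X / S.N q ≤ X := div_le_self hX0.le hN1
      have h1 := hH.ht (fun _ => 1) (fun _ => ⟨zero_le_one, by
        have : (0 : ℝ) ≤ Fintype.card k := Nat.cast_nonneg _
        linarith⟩) (X / S.N q) hY P
      simp only [Finset.prod_const_one, one_mul, sub_self, zero_div, Finset.sum_const_zero,
        Real.exp_zero, mul_one] at h1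
      have h2 : ∀ r : Finset B, (S.nm r : ℝ) / (X / S.N q) = (S.N q : ℝ) * S.nm r / X := by
        intro r
        rw [div_div_eq_mul_div, mul_comm]
      simp only [h2] at h1
      refine h1.trans ?_
      have h3 : g (X / S.N q) ≤ K * g X := hH.g_mono _ _ hYX
      have h4 : (0 : ℝ) ≤ g (X / S.N q) := by
        have := hH.g_one (X / S.N q)
        linarith
      have h5 : X / S.N q * min 1 (X / S.N q) * g (X / S.N q) ≤
          X / S.N q * (X / S.N q) * (K * g X) := by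
        refine mul_le_mul ?_ h3 h4 (by positivity)
        exact mul_le_mul_of_nonneg_left (min_le_right _ _) hY.le
      calc (K : ℝ) * (X / S.N q * min 1 (X / S.N q) * g (X / S.N q))
          ≤ K * (X / S.N q * (X / S.N q) * (K * g X)) :=
            mul_le_mul_of_nonneg_left h5 (by positivity)
        _ = (K : ℝ) ^ 2 * X ^ 2 * g X * (1 / (S.N q : ℝ) ^ 2) := by
            field_simp
    · simp only [hG, if_neg hq, Finset.sum_const_zero, le_refl]
  have hE' : ∑ q ∈ P, (if θ < S.bl q then (K : ℝ) ^ 2 * X ^ 2 * g X * (1 / (S.N q : ℝ) ^ 2)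
      else 0) ≤ (K : ℝ) ^ 2 * X ^ 2 * g X * (K * (1 / 2) ^ θ) := by
    rw [← Finset.sum_filter, ← Finset.mul_sum]
    exact mul_le_mul_of_nonneg_left (sum_inv_sq S K hH.che θ P) (by positivity)
  refine hA.trans ((le_of_eq hB).trans (hC.trans ((Finset.sum_le_sum hD).trans (hE'.trans ?_))))
  -- the final comparison
  have h6 : X ^ 2 ≤ 2 ^ θ := by
    calc X ^ 2 ≤ (2 ^ (lg X + 1)) ^ 2 := by
          exact pow_le_pow_left₀ hX0.le (lt_two_pow_lg X).le 2
      _ = 2 ^ (2 * (lg X + 1)) := by rw [← pow_mul, mul_comm]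
      _ ≤ 2 ^ θ := pow_le_pow_right₀ (by norm_num) hth
  have h7 : X ^ 2 * (1 / 2) ^ θ ≤ 1 := by
    rw [one_div_pow, mul_one_div, div_le_one (by positivity)]
    exact h6
  have h8 : (K : ℝ) ^ 3 ≤ ε * X := by
    rw [div_le_iff₀ hε] at hXK
    linarith
  calc (K : ℝ) ^ 2 * X ^ 2 * g X * (K * (1 / 2) ^ θ)
      = (K : ℝ) ^ 3 * g X * (X ^ 2 * (1 / 2) ^ θ) := by ring
    _ ≤ (K : ℝ) ^ 3 * g X * 1 := mul_le_mul_of_nonneg_left h7 (by positivity)
    _ ≤ ε * X * g X * 1 := by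
        refine mul_le_mul_of_nonneg_right ?_ zero_le_one
        exact mul_le_mul_of_nonneg_right h8 (by linarith)
    _ = ε * (X * g X) := by ring

end Pool.Agent.Helper17.PP0.EX6
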