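import Pool.Agent.Helper17.PP.FinD0
import Pool.Agent.Helper17.PP0.Goals

/-!
# Project PP, stage 2: the assembly of `MT₀`: the steps
-/

namespace Pool.Agent.Helper17.PP0

open Finset Pool.Agent.Helper17.PP

section steps

variable {p : ℕ} [Fact p.Prime] {B B₀ k U Λ C : Type} [Field k] [Fintype k]
    [Algebra (ZMod p) k] [AddCommGroup U] [Module k U] [Fintype U] [AddCommGroup Λ] [Module k Λ]
    [Fintype Λ] [AddCommGroup C] (S : Sys p B B₀ k U Λ C)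

open Classical in
theorem step1 (hCNT : C_CNT) (E j₀ s : ℕ) (X : ℝ) (P : Finset B) :
    ∑ b ∈ P.powerset with (S.Fam b ∧ S.Bad b), Real.exp (-(S.nm b / X)) ≤
      ∑ b ∈ P.powerset with (∃ q ∈ b, th E s < S.bl q), Real.exp (-(S.nm b / X)) +
      ∑ b ∈ P.powerset with (S.Fam b ∧ ∃ (x : U) (c : B → k), S.IsSol b x c ∧
        ¬ (x = 0 ∧ c = 0) ∧ ∀ q, c q ≠ 0 → S.bl q < j₀), Real.exp (-(S.nm b / X)) +
      ∑ b ∈ P.powerset with (∃ q ∈ b, ∃ q' ∈ b, q ≠ q' ∧ S.bl q = S.bl q' ∧ j₀ ≤ S.bl q),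
        Real.exp (-(S.nm b / X)) +
      ∑ b ∈ P.powerset with (∃ q ∈ b, j₀ ≤ S.bl q ∧ ∃ D ⊆ b, q ∉ D ∧
        (∀ q' ∈ D, S.bl q' ≤ th E (S.bl q)) ∧ 2 ^ tb E (S.bl q) ≤ S.nm D),
        Real.exp (-(S.nm b / X)) +
      ∑ b ∈ (P.filter fun q ↦ S.bl q ≤ th E s).powerset with (S.Fam b ∧
        ∃ q, S.Wt E b q ∧ j₀ ≤ S.bl q ∧ Fintype.card k - 1 ≤ S.cnt₂ E b q),
        Real.exp (-(S.nm b / X)) := by
  have hlast : ∑ b ∈ (P.filter fun q ↦ S.bl q ≤ th E s).powerset with (S.Fam b ∧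
        ∃ q, S.Wt E b q ∧ j₀ ≤ S.bl q ∧ Fintype.card k - 1 ≤ S.cnt₂ E b q),
        Real.exp (-(S.nm b / X)) =
      ∑ b ∈ P.powerset with ((∀ q ∈ b, S.bl q ≤ th E s) ∧ (S.Fam b ∧
        ∃ q, S.Wt E b q ∧ j₀ ≤ S.bl q ∧ Fintype.card k - 1 ≤ S.cnt₂ E b q)),
        Real.exp (-(S.nm b / X)) := by
    refine Finset.sum_congr ?_ fun _ _ ↦ rfl
    ext b
    simp only [mem_filter, mem_powerset]
    constructor
    · rintro ⟨h1, h2⟩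
      exact ⟨fun q hq ↦ (mem_filter.1 (h1 hq)).1, fun q hq ↦ (mem_filter.1 (h1 hq)).2, h2⟩
    · rintro ⟨h1, h2, h3⟩
      exact ⟨fun q hq ↦ mem_filter.2 ⟨h1 hq, h2 q hq⟩, h3⟩
  rw [hlast]
  simp only [Finset.sum_filter, ← Finset.sum_add_distrib]
  refine Finset.sum_le_sum fun b hb ↦ ?_
  have he : 0 ≤ Real.exp (-(S.nm b / X)) := (Real.exp_pos _).le
  by_cases hA : S.Fam b ∧ S.Bad b
  swap
  · rw [if_neg hA]
    positivity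
  rw [if_pos hA]
  by_cases h6 : ∃ q ∈ b, th E s < S.bl q
  · rw [if_pos h6]
    have : 0 ≤ (if S.Fam b ∧ ∃ (x : U) (c : B → k), S.IsSol b x c ∧
        ¬ (x = 0 ∧ c = 0) ∧ ∀ q, c q ≠ 0 → S.bl q < j₀ then Real.exp (-(S.nm b / X)) else 0) := by
      positivity
    have : 0 ≤ (if (∃ q ∈ b, ∃ q' ∈ b, q ≠ q' ∧ S.bl q = S.bl q' ∧ j₀ ≤ S.bl q) then
      Real.exp (-(S.nm b / X)) else 0) := by positivity
    have : 0 ≤ (if (∃ q ∈ b, j₀ ≤ S.bl q ∧ ∃ D ⊆ b, q ∉ D ∧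
        (∀ q' ∈ D, S.bl q' ≤ th E (S.bl q)) ∧ 2 ^ tb E (S.bl q) ≤ S.nm D) then
      Real.exp (-(S.nm b / X)) else 0) := by positivity
    have : 0 ≤ (if ((∀ q ∈ b, S.bl q ≤ th E s) ∧ (S.Fam b ∧
        ∃ q, S.Wt E b q ∧ j₀ ≤ S.bl q ∧ Fintype.card k - 1 ≤ S.cnt₂ E b q)) then
      Real.exp (-(S.nm b / X)) else 0) := by positivity
    linarith
  rw [if_neg h6]
  by_cases h0 : S.Fam b ∧ ∃ (x : U) (c : B → k), S.IsSol b x c ∧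
        ¬ (x = 0 ∧ c = 0) ∧ ∀ q, c q ≠ 0 → S.bl q < j₀
  · rw [if_pos h0]
    have : 0 ≤ (if (∃ q ∈ b, ∃ q' ∈ b, q ≠ q' ∧ S.bl q = S.bl q' ∧ j₀ ≤ S.bl q) then
      Real.exp (-(S.nm b / X)) else 0) := by positivity
    have : 0 ≤ (if (∃ q ∈ b, j₀ ≤ S.bl q ∧ ∃ D ⊆ b, q ∉ D ∧
        (∀ q' ∈ D, S.bl q' ≤ th E (S.bl q)) ∧ 2 ^ tb E (S.bl q) ≤ S.nm D) then
      Real.exp (-(S.nm b / X)) else 0) := by positivity
    have : 0 ≤ (if ((∀ q ∈ b, S.bl q ≤ th E s) ∧ (S.Fam b ∧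
        ∃ q, S.Wt E b q ∧ j₀ ≤ S.bl q ∧ Fintype.card k - 1 ≤ S.cnt₂ E b q)) then
      Real.exp (-(S.nm b / X)) else 0) := by positivity
    linarith
  rw [if_neg h0]
  by_cases h2 : ∃ q ∈ b, ∃ q' ∈ b, q ≠ q' ∧ S.bl q = S.bl q' ∧ j₀ ≤ S.bl q
  · rw [if_pos h2]
    have : 0 ≤ (if (∃ q ∈ b, j₀ ≤ S.bl q ∧ ∃ D ⊆ b, q ∉ D ∧
        (∀ q' ∈ D, S.bl q' ≤ th E (S.bl q)) ∧ 2 ^ tb E (S.bl q) ≤ S.nm D) then
      Real.exp (-(S.nm b / X)) else 0) := by positivity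
    have : 0 ≤ (if ((∀ q ∈ b, S.bl q ≤ th E s) ∧ (S.Fam b ∧
        ∃ q, S.Wt E b q ∧ j₀ ≤ S.bl q ∧ Fintype.card k - 1 ≤ S.cnt₂ E b q)) then
      Real.exp (-(S.nm b / X)) else 0) := by positivity
    linarith
  rw [if_neg h2]
  by_cases h5 : ∃ q ∈ b, j₀ ≤ S.bl q ∧ ∃ D ⊆ b, q ∉ D ∧
        (∀ q' ∈ D, S.bl q' ≤ th E (S.bl q)) ∧ 2 ^ tb E (S.bl q) ≤ S.nm D
  · rw [if_pos h5]
    have : 0 ≤ (if ((∀ q ∈ b, S.bl q ≤ th E s) ∧ (S.Fam b ∧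
        ∃ q, S.Wt E b q ∧ j₀ ≤ S.bl q ∧ Fintype.card k - 1 ≤ S.cnt₂ E b q)) then
      Real.exp (-(S.nm b / X)) else 0) := by positivity
    linarith
  rw [if_neg h5, if_pos]
  · linarith
  refine ⟨fun q hq ↦ not_lt.1 fun h ↦ h6 ⟨q, hq, h⟩, hA.1, ?_⟩
  refine hCNT p B B₀ k U Λ C S E j₀ b hA.2 (fun x c hx hne ↦ ?_) fun q hq hqs hqb ↦ ?_
  · by_contra hh
    push Not at hh
    exact h0 ⟨hA.1, x, c, hx, hne, fun q hq ↦ hh q hq⟩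
  · refine ⟨hq, hqs, fun q' hq' hne _ he ↦ h2 ⟨q, hq, q', hq', Ne.symm hne, he.symm, hqb⟩,
      fun D hD hqD hDb ↦ ?_⟩
    by_contra hh
    exact h5 ⟨q, hq, hqb, D, hD, hqD, hDb, not_lt.1 hh⟩

open Classical in
theorem step2 (E j₀ : ℕ) (b : Finset B)
    (hq : ∃ q, S.Wt E b q ∧ j₀ ≤ S.bl q ∧ Fintype.card k - 1 ≤ S.cnt₂ E b q) :
    (Fintype.card k : ℝ) - 1 ≤
      ∑ q ∈ b with (S.Wt E b q ∧ j₀ ≤ S.bl q), (S.cnt E b q : ℝ) := by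
  obtain ⟨q, hq, hqj, hqc⟩ := hq
  have hc : (Fintype.card k : ℝ) - 1 ≤ S.cnt₂ E b q := by
    have : Fintype.card k ≤ S.cnt₂ E b q + 1 := by omega
    have h2 : (Fintype.card k : ℝ) ≤ (S.cnt₂ E b q : ℝ) + 1 := by exact_mod_cast this
    linarith
  have h1 : (S.cnt E b q : ℝ) ≤
      ∑ q ∈ b with (S.Wt E b q ∧ j₀ ≤ S.bl q), (S.cnt E b q : ℝ) :=
    Finset.single_le_sum (f := fun q ↦ (S.cnt E b q : ℝ)) (fun _ _ ↦ by positivity)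
      (mem_filter.2 ⟨hq.mem, hq, hqj⟩)
  have h2 : (S.cnt₂ E b q : ℝ) ≤ S.cnt E b q := by exact_mod_cast S.cnt₂_le E b q
  linarith

open Classical in
theorem step4 (E j₀ s : ℕ) (P : Finset B) (X : ℝ)
    (hP : ∀ q ∈ P, S.bl q ≤ th E s) :
    ((Fintype.card k : ℝ) - 1) * ∑ b ∈ P.powerset with (S.Fam b ∧
        ∃ q, S.Wt E b q ∧ j₀ ≤ S.bl q ∧ Fintype.card k - 1 ≤ S.cnt₂ E b q),
        Real.exp (-(S.nm b / X)) ≤ ∑ j ∈ Ico j₀ (th E s + 1), T1 S E P X j := by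
  have hA : ((Fintype.card k : ℝ) - 1) * ∑ b ∈ P.powerset with (S.Fam b ∧
        ∃ q, S.Wt E b q ∧ j₀ ≤ S.bl q ∧ Fintype.card k - 1 ≤ S.cnt₂ E b q),
        Real.exp (-(S.nm b / X)) ≤
      ∑ b ∈ P.powerset with S.Fam b,
        (∑ q ∈ b with (S.Wt E b q ∧ j₀ ≤ S.bl q), (S.cnt E b q : ℝ)) *
          Real.exp (-(S.nm b / X)) := by
    rw [Finset.mul_sum]
    refine (Finset.sum_le_sum fun b hb ↦ ?_).trans (Finset.sum_le_sum_of_subset_of_nonneg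
      (s := P.powerset.filter fun b ↦ (S.Fam b ∧
        ∃ q, S.Wt E b q ∧ j₀ ≤ S.bl q ∧ Fintype.card k - 1 ≤ S.cnt₂ E b q)) ?_ ?_)
    · rw [mem_filter] at hb
      exact mul_le_mul_of_nonneg_right (step2 (Λ := Λ) S E j₀ b hb.2.2)
        (Real.exp_pos _).le
    · intro b hb
      rw [mem_filter] at hb ⊢
      exact ⟨hb.1, hb.2.1⟩
    · intro b _ _
      positivity
  refine hA.trans (le_of_eq ?_)
  unfold T1
  rw [Finset.sum_comm]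
  refine Finset.sum_congr rfl fun b hb ↦ ?_
  rw [mem_filter, mem_powerset] at hb
  have hbl : ∀ q ∈ b, S.bl q < th E s + 1 := fun q hq ↦ Nat.lt_succ_of_le (hP q (hb.1 hq))
  rw [Finset.sum_mul]
  exact S.sum_blocks b (fun q ↦ S.Wt E b q) j₀ (th E s + 1)
    (fun q ↦ (S.cnt E b q : ℝ) * Real.exp (-(S.nm b / X))) hbl

end steps

end Pool.Agent.Helper17.PP0
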