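import Pool.Agent.Helper17.PP.Parts
import Pool.Agent.Helper17.PP0.Fin0
import Pool.Agent.Helper17.PP0.SML
import Pool.Agent.Helper17.PP0.MNS
import Pool.Agent.Helper17.PP0.EX0
import Pool.Agent.Helper17.PP0.EX2
import Pool.Agent.Helper17.PP0.EX5
import Pool.Agent.Helper17.PP0.EX6
import Pool.Agent.Helper17.PP0.LRG

/-!
# Project PP, stage 2: the parts of the abstract moment theorem without the weak condition
-/
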